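import Pool.Agent.N528.LeafCyc.Cycle

/-!
# Leafwise complex cycles: the tropical cycle is a `C`-current
-/

open TopologicalSpace MeasureTheory Set Function Filter Topology
open scoped Distributions CompactConvergenceCLM ContDiff Manifold NNReal unitInterval ENNReal
  BoundedContinuousFunction

noncomputable section

namespace Pool.Agent.N528.LeafCyc

/-- the weight `(1 + ‖x‖)⁴` -/
def wt (x : V) : ℝ := (1 + ‖x‖) ^ 4

lemma wt_cont : Continuous wt := by unfold wt; fun_prop

lemma wt_pos (x : V) : 0 < wt x := by unfold wt; positivity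

/-- multiplication of a test form by the weight, as a bounded continuous function -/
def Jfun (α : 𝓓((⊤ : Opens V), Form 2)) : V →ᵇ Form 2 :=
  BoundedContinuousFunction.ofNormedAddCommGroup (fun x => wt x • α x)
    (wt_cont.smul α.continuous)
    ((wt_cont.smul α.continuous).bounded_above_of_compact_support
      (α.hasCompactSupport.smul_left)).choose
    ((wt_cont.smul α.continuous).bounded_above_of_compact_support
      (α.hasCompactSupport.smul_left)).choose_spec

lemma Jfun_apply (α : 𝓓((⊤ : Opens V), Form 2)) (x : V) : Jfun α x = wt x • α x := rfl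

/-- the weight truncated at `M` -/
def wtM (M : ℝ) : V →ᵇ ℝ :=
  BoundedContinuousFunction.ofNormedAddCommGroup (fun x => max 0 (min (wt x) M))
    (continuous_const.max (wt_cont.min continuous_const)) |M| (by
      intro x
      rw [Real.norm_eq_abs, abs_of_nonneg (le_max_left _ _)]
      exact max_le (abs_nonneg _) ((min_le_right _ _).trans (le_abs_self _)))

/-- `Jfun` as a continuous linear map -/
def J : 𝓓((⊤ : Opens V), Form 2) →L[ℝ] (V →ᵇ Form 2) :=
  TestFunction.mkCLM ℝ Jfun
    (fun f g => by ext x : 1; simp [Jfun_apply, smul_add])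
    (fun c f => by ext x : 1; simp [Jfun_apply, smul_comm c])
    (fun K hK => by
      obtain ⟨M, hM⟩ := (K.isCompact.image wt_cont).isBounded.bddAbove
      have h1 : (Jfun ∘ TestFunction.ofSupportedIn hK) = fun f : 𝓓^{⊤}_{K}(V, Form 2) =>
          (wtM M) • (ContDiffMapSupportedIn.toBoundedContinuousFunctionCLM ℝ f) := by
        funext f
        ext x : 1
        have h2 : Jfun (TestFunction.ofSupportedIn hK f) x = wt x • f x := rfl
        have h3 : ((wtM M) • (ContDiffMapSupportedIn.toBoundedContinuousFunctionCLM ℝ f :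
            V →ᵇ Form 2)) x = (max 0 (min (wt x) M)) • f x := rfl
        rw [Function.comp_apply, h2, h3]
        by_cases hx : x ∈ K
        · have : wt x ≤ M := hM ⟨x, hx, rfl⟩
          rw [min_eq_left this, max_eq_right (wt_pos x).le]
        · have : f x = 0 := by
            by_contra h
            exact hx (f.tsupport_subset (subset_tsupport _ h))
          rw [this, smul_zero, smul_zero]
      rw [h1]
      have hc : Continuous (fun f : 𝓓^{⊤}_{K}(V, Form 2) =>
          (ContDiffMapSupportedIn.toBoundedContinuousFunctionCLM ℝ f : V →ᵇ Form 2)) :=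
        (ContDiffMapSupportedIn.toBoundedContinuousFunctionCLM ℝ :
          𝓓^{⊤}_{K}(V, Form 2) →L[ℝ] V →ᵇ Form 2).continuous
      have : Continuous fun h : V →ᵇ Form 2 => (wtM M) • h := by
        refine continuous_of_linear_of_bound (𝕜 := ℝ) (C := ‖wtM M‖) (fun x y => ?_)
          (fun c x => ?_) (fun x => ?_)
        · ext z : 1
          exact smul_add (wtM M z) (x z) (y z)
        · ext z : 1
          exact smul_comm (wtM M z) c (x z)
        · refine (BoundedContinuousFunction.norm_le (by positivity)).2 fun z => ?_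
          calc ‖((wtM M) • x) z‖ = ‖wtM M z • x z‖ := rfl
            _ ≤ ‖wtM M z‖ * ‖x z‖ := (norm_smul (wtM M z) (x z)).le
            _ ≤ ‖wtM M‖ * ‖x‖ := mul_le_mul ((wtM M).norm_coe_le_norm z) (x.norm_coe_le_norm z)
              (norm_nonneg _) (norm_nonneg _)
      exact this.comp hc)

lemma J_apply (α : 𝓓((⊤ : Opens V), Form 2)) (x : V) : J α x = wt x • α x := rfl

/-- the convex cone generated by the Dirac currents -/
def diracCone : Submodule ℝ≥0 (Current 2 ⊤) :=
  Submodule.span ℝ≥0 {T : Current 2 ⊤ | ∃ y ∈ (⊤ : Opens V), ∃ ξ ∈ structureCone,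
    T = dirac ⊤ y ξ}

lemma dirac_apply (y : V) (ξ : Form 2 →L[ℝ] ℝ) (α : 𝓓((⊤ : Opens V), Form 2)) :
    dirac ⊤ y ξ α = ξ (α y) := rfl

lemma smul_mem_cone {c : ℝ} (hc : 0 ≤ c) {D : Current 2 ⊤} (hD : D ∈ diracCone) :
    c • D ∈ diracCone := by
  have : (⟨c, hc⟩ : ℝ≥0) • D ∈ diracCone := diracCone.smul_mem _ hD
  exact this

lemma convex_cone : Convex ℝ (diracCone : Set (Current 2 ⊤)) := by
  intro x hx y hy a b ha hb _
  exact diracCone.add_mem (smul_mem_cone ha hx) (smul_mem_cone hb hy)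

/-- currents given by integration of a fixed `2`-vector of the structure cone against a measure
of finite weighted mass are in the closed convex cone generated by Dirac currents -/
lemma isCCurrent_of_integral {ν : Measure V} [IsFiniteMeasure ν] {ξ : Form 2 →L[ℝ] ℝ}
    (hξ : ξ ∈ structureCone) {T : Current 2 ⊤}
    (hT : ∀ α, T α = ∫ x, ξ (J α x) ∂ν) : IsCCurrent T := by
  have hKK : IsCCurrent T ↔ T ∈ closure (diracCone : Set (Current 2 ⊤)) := Iff.rfl
  rw [hKK]
  rcases eq_or_ne ν 0 with hν | hν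
  · have : T = 0 := by
      ext α
      rw [hT, hν]
      simp
    rw [this]
    exact subset_closure diracCone.zero_mem
  have : NeZero ν := ⟨hν⟩
  rw [mem_closure_iff_nhds_zero]
  intro N hN
  obtain ⟨⟨K, ε⟩, ⟨hK, hε⟩, hsub⟩ :=
    (CompactConvergenceCLM.hasBasis_nhds_zero_of_basis Metric.nhds_basis_ball).mem_iff.1 hN
  simp only at hK hε hsub
  set m : ℝ := ν.real univ with hm
  have hm0 : 0 < m := by
    rw [hm, measureReal_def]
    exact ENNReal.toReal_pos (by simpa using hν) (measure_ne_top _ _)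
  set c : ℝ := ‖ξ‖ * m with hc
  have hc0 : 0 ≤ c := by positivity
  set δ : ℝ := ε / (2 * c + 2) with hδ
  have hδ0 : 0 < δ := by positivity
  obtain ⟨t, ht, htf, hcov⟩ := (hK.image J.continuous).finite_cover_balls hδ0
  have := htf.fintype
  choose! a haK haJ using fun h (hh : h ∈ t) => ht hh
  -- the vector valued function
  let H : V → (t → ℝ) := fun x h => ξ ((h : V →ᵇ Form 2) x)
  have hHc : Continuous H := continuous_pi fun h => ξ.continuous.comp (h : V →ᵇ Form 2).continuous
  have hHb : ∀ x, ‖H x‖ ≤ ‖ξ‖ * ∑ h : t, ‖(h : V →ᵇ Form 2)‖ := by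
    intro x
    rw [pi_norm_le_iff_of_nonneg (by positivity)]
    intro h
    calc ‖H x h‖ ≤ ‖ξ‖ * ‖(h : V →ᵇ Form 2) x‖ := ξ.le_opNorm _
      _ ≤ ‖ξ‖ * ‖(h : V →ᵇ Form 2)‖ := by
        gcongr
        exact (h : V →ᵇ Form 2).norm_coe_le_norm x
      _ ≤ _ := by
        gcongr
        exact Finset.single_le_sum (f := fun h : t => ‖(h : V →ᵇ Form 2)‖)
          (fun _ _ => norm_nonneg _) (Finset.mem_univ h)
  have hHi : Integrable H ν := Integrable.of_bound hHc.aestronglyMeasurable _
    (Eventually.of_forall hHb)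
  have havg : (⨍ x, H x ∂ν) ∈ closure (convexHull ℝ (range H)) :=
    ((convex_convexHull ℝ _).closure).average_mem isClosed_closure
      (Eventually.of_forall fun x => subset_closure (subset_convexHull ℝ _ ⟨x, rfl⟩)) hHi
  obtain ⟨y, hy, hyd⟩ := Metric.mem_closure_iff.1 havg (δ / m) (by positivity)
  -- lift to currents
  let Φ : Current 2 ⊤ →ₗ[ℝ] (t → ℝ) :=
    { toFun := fun D h => D (a h)
      map_add' := fun _ _ => rfl
      map_smul' := fun _ _ => rfl }
  let A : Set (Current 2 ⊤) := {D | ∃ x : V, D = wt x • dirac ⊤ x ξ}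
  have hΦA : Φ '' A = range H := by
    ext z
    constructor
    · rintro ⟨_, ⟨x, rfl⟩, rfl⟩
      refine ⟨x, ?_⟩
      funext h
      show ξ ((h : V →ᵇ Form 2) x) = wt x * ξ (a h x)
      rw [← haJ h h.2, J_apply, map_smul, smul_eq_mul, haJ h h.2]
    · rintro ⟨x, rfl⟩
      refine ⟨_, ⟨x, rfl⟩, ?_⟩
      funext h
      show wt x * ξ (a h x) = ξ ((h : V →ᵇ Form 2) x)
      rw [← haJ h h.2, J_apply, map_smul, smul_eq_mul, haJ h h.2]
  rw [← hΦA, ← Φ.image_convexHull] at hy
  obtain ⟨D, hD, rfl⟩ := hy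
  have hAK : A ⊆ (diracCone : Set (Current 2 ⊤)) := by
    rintro _ ⟨x, rfl⟩
    exact smul_mem_cone (wt_pos x).le (Submodule.subset_span ⟨x, trivial, ξ, hξ, rfl⟩)
  have hDK : D ∈ diracCone := convexHull_min hAK convex_cone hD
  have hDb : ∀ α, |D α| ≤ ‖ξ‖ * ‖J α‖ := by
    have hconv : Convex ℝ {D : Current 2 ⊤ | ∀ α, |D α| ≤ ‖ξ‖ * ‖J α‖} := by
      intro x hx y hy p q hp hq hpq α
      have h1 : (p • x + q • y) α = p * x α + q * y α := rfl
      rw [h1]
      calc |p * x α + q * y α| ≤ |p * x α| + |q * y α| := abs_add_le _ _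
        _ = p * |x α| + q * |y α| := by rw [abs_mul, abs_mul, abs_of_nonneg hp, abs_of_nonneg hq]
        _ ≤ p * (‖ξ‖ * ‖J α‖) + q * (‖ξ‖ * ‖J α‖) := by
          gcongr
          · exact hx α
          · exact hy α
        _ = ‖ξ‖ * ‖J α‖ := by rw [← add_mul, hpq, one_mul]
    refine convexHull_min ?_ hconv hD
    rintro _ ⟨x, rfl⟩ α
    show |wt x * ξ (α x)| ≤ ‖ξ‖ * ‖J α‖
    calc |wt x * ξ (α x)| = ‖ξ (J α x)‖ := by
          rw [J_apply, map_smul, smul_eq_mul, Real.norm_eq_abs]
      _ ≤ ‖ξ‖ * ‖J α x‖ := ξ.le_opNorm _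
      _ ≤ ‖ξ‖ * ‖J α‖ := by
        gcongr
        exact (J α).norm_coe_le_norm x
  have hTb : ∀ α, |T α| ≤ c * ‖J α‖ := by
    intro α
    rw [hT, ← Real.norm_eq_abs]
    refine (norm_integral_le_of_norm_le_const (C := ‖ξ‖ * ‖J α‖) (Eventually.of_forall fun x =>
      (ξ.le_opNorm _).trans (by
        gcongr
        exact (J α).norm_coe_le_norm x))).trans ?_
    rw [hc, ← hm]
    exact le_of_eq (by ring)
  refine ⟨m • D, smul_mem_cone hm0.le hDK, hsub ?_⟩
  intro α hα
  obtain ⟨h, hht, hball⟩ := mem_iUnion₂.1 (hcov (mem_image_of_mem J hα))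
  have hJd : ‖J (α - a h)‖ < δ := by
    rw [map_sub, haJ h hht]
    rwa [mem_ball_iff_norm] at hball
  -- the three estimates
  have e1 : |m * D (α - a h)| ≤ c * δ := by
    rw [abs_mul, abs_of_pos hm0]
    calc m * |D (α - a h)| ≤ m * (‖ξ‖ * ‖J (α - a h)‖) := by
          gcongr
          exact hDb _
      _ = c * ‖J (α - a h)‖ := by rw [hc]; ring
      _ ≤ c * δ := by gcongr
  have e2 : |T (α - a h)| ≤ c * δ := (hTb _).trans (by gcongr)
  have e3 : |m * D (a h) - T (a h)| ≤ δ := by
    have hcoord : (⨍ x, H x ∂ν) ⟨h, hht⟩ = m⁻¹ * T (a h) := by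
      rw [average_eq, Pi.smul_apply, smul_eq_mul]
      have h2 : (∫ x, H x ∂ν) ⟨h, hht⟩ = ∫ x, H x ⟨h, hht⟩ ∂ν :=
        eval_integral (fun i => hHi.eval i) _
      rw [h2, hT, haJ h hht]
    have h3 : dist ((⨍ x, H x ∂ν) ⟨h, hht⟩) (Φ D ⟨h, hht⟩) < δ / m :=
      (dist_le_pi_dist _ _ _).trans_lt hyd
    rw [hcoord, Real.dist_eq] at h3
    have h4 : Φ D ⟨h, hht⟩ = D (a h) := rfl
    rw [h4, lt_div_iff₀ hm0] at h3
    have h5 : |m * D (a h) - T (a h)| = |m⁻¹ * T (a h) - D (a h)| * m := by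
      nth_rewrite 3 [← abs_of_pos hm0]
      rw [← abs_mul, abs_sub_comm]
      congr 1
      field_simp
    rw [h5]
    exact h3.le
  have hgoal : (m • D - T) α = m * D (α - a h) - T (α - a h) + (m * D (a h) - T (a h)) := by
    have h6 : (m • D - T) α = m * D α - T α := rfl
    rw [h6, map_sub, map_sub]
    ring
  rw [hgoal, mem_ball_zero_iff, Real.norm_eq_abs]
  have h7 : δ * (2 * c + 2) = ε := by
    rw [hδ]
    field_simp
  calc |m * D (α - a h) - T (α - a h) + (m * D (a h) - T (a h))|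
      ≤ |m * D (α - a h) - T (α - a h)| + |m * D (a h) - T (a h)| := abs_add_le _ _
    _ ≤ |m * D (α - a h)| + |T (α - a h)| + |m * D (a h) - T (a h)| := by
      gcongr
      exact abs_sub _ _
    _ ≤ c * δ + c * δ + δ := by gcongr
    _ < ε := by nlinarith

/-- the inverse weight as a `ℝ≥0`-valued function -/
def wN (x : V) : ℝ≥0 := ⟨(wt x)⁻¹, by have := wt_pos x; positivity⟩

lemma wN_measurable : Measurable wN :=
  Measurable.subtype_mk (wt_cont.measurable.inv)

lemma wedge_mem (v : V) : wedge v (Complex.I • v) ∈ structureCone :=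
  subset_closure (Submodule.subset_span ⟨v, rfl⟩)

lemma finite_weight {a b : ℝ} (hab : 1 ≤ max |a| |b|) :
    ∫⁻ x, (wN x : ℝ≥0∞) ∂(legMeasure a b) ≠ ⊤ := by
  rw [legMeasure, lintegral_map wN_measurable.coe_nnreal_ennreal (PL a b).continuous.measurable]
  have i1 : (volume : Measure (ℝ × ℝ)).IsAddHaarMeasure := by
    rw [Measure.volume_eq_prod ℝ ℝ]
    infer_instance
  have i2 : (volume : Measure (ℝ × (ℝ × ℝ))).IsAddHaarMeasure := by
    rw [Measure.volume_eq_prod ℝ (ℝ × ℝ)]
    infer_instance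
  have h1 : ∫⁻ q : ℝ × (ℝ × ℝ), ENNReal.ofReal ((1 + ‖q‖) ^ (-4 : ℝ)) < ⊤ := by
    apply finite_integral_one_add_norm
    have : Module.finrank ℝ (ℝ × (ℝ × ℝ)) = 3 := by simp
    rw [this]
    norm_num
  refine ne_top_of_le_ne_top h1.ne ((lintegral_mono' Measure.restrict_le_self le_rfl).trans
    (lintegral_mono fun q => ?_))
  have h2 : ((wN (PL a b q) : ℝ≥0) : ℝ≥0∞) = ENNReal.ofReal ((wt (PL a b q))⁻¹) := by
    rw [ENNReal.ofReal, wN]
    congr 1
    exact (Real.toNNReal_of_nonneg (by have := wt_pos (PL a b q); positivity)).symm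
  rw [h2]
  apply ENNReal.ofReal_le_ofReal
  have h3 : (1 + ‖q‖) ^ (-4 : ℝ) = ((1 + ‖q‖) ^ 4)⁻¹ := by
    rw [Real.rpow_neg (by positivity)]
    norm_cast
  rw [h3, wt]
  have := norm_PL hab q
  gcongr

lemma isCCurrent_leg {a b : ℝ} (hab : 1 ≤ max |a| |b|) : IsCCurrent (leg a b) := by
  have := locFinite hab
  have hfin : IsFiniteMeasure ((legMeasure a b).withDensity fun x => (wN x : ℝ≥0∞)) :=
    isFiniteMeasure_withDensity (finite_weight hab)
  refine isCCurrent_of_integral (ν := (legMeasure a b).withDensity fun x => (wN x : ℝ≥0∞))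
    (wedge_mem (dir a b)) fun α => ?_
  have h1 : leg a b α = ∫ x, (ContinuousLinearMap.apply ℝ ℝ) (α x)
      (wedge (dir a b) (Complex.I • dir a b)) ∂(legMeasure a b) :=
    TestFunction.integralAgainstBilinCLM_eq_integral
      ((locallyIntegrable_const _).locallyIntegrableOn _)
  rw [h1, integral_withDensity_eq_integral_smul wN_measurable]
  refine integral_congr_ae (Eventually.of_forall fun x => ?_)
  show wedge (dir a b) (Complex.I • dir a b) (α x) =
    (wt x)⁻¹ * wedge (dir a b) (Complex.I • dir a b) (J α x)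
  rw [J_apply, map_smul, smul_eq_mul, ← mul_assoc, inv_mul_cancel₀ (wt_pos x).ne', one_mul]

lemma isCCurrent_cyc : IsCCurrent cyc := by
  have hadd : ∀ S T : Current 2 ⊤, IsCCurrent S → IsCCurrent T → IsCCurrent (S + T) := by
    intro S T hS hT
    exact map_mem_closure₂ continuous_add hS hT fun a ha b hb => diracCone.add_mem ha hb
  exact hadd _ _ (hadd _ _ (isCCurrent_leg h11) (isCCurrent_leg h10)) (isCCurrent_leg h01)

end Pool.Agent.N528.LeafCyc
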