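import Pool.Agent.N528.LeafCyc.Surf

/-!
# Leafwise complex cycles: holomorphic curves inside the tropical support
-/

open TopologicalSpace MeasureTheory Set Function Filter Topology
open scoped Distributions CompactConvergenceCLM ContDiff Manifold NNReal unitInterval

noncomputable section

namespace Pool.Agent.N528.LeafCyc

/-- the support of the cycle: `Re x ∈ ℝ²` lies on the tripod with legs `ℝ₊(1,1)`, `ℝ₊(-1,0)`,
`ℝ₊(0,-1)`. -/
def supp : Set V := {x | (x.1.re = x.2.re ∧ 0 ≤ x.1.re) ∨ (x.1.re = 0 ∧ x.2.re ≤ 0) ∨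
  (x.2.re = 0 ∧ x.1.re ≤ 0)}

lemma isClosed_supp : IsClosed supp := by
  have e : supp = ({x : V | x.1.re = x.2.re} ∩ {x : V | 0 ≤ x.1.re}) ∪
      (({x : V | x.1.re = 0} ∩ {x : V | x.2.re ≤ 0}) ∪
      ({x : V | x.2.re = 0} ∩ {x : V | x.1.re ≤ 0})) := rfl
  have c1 : Continuous fun x : V => x.1.re := Complex.continuous_re.comp continuous_fst
  have c2 : Continuous fun x : V => x.2.re := Complex.continuous_re.comp continuous_snd
  rw [e]
  exact ((isClosed_eq c1 c2).inter (isClosed_le continuous_const c1)).union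
    (((isClosed_eq c1 continuous_const).inter (isClosed_le c2 continuous_const)).union
    ((isClosed_eq c2 continuous_const).inter (isClosed_le c1 continuous_const)))

lemma norm_le_of_re_im {z w : ℂ} (h1 : |z.re| ≤ |w.re|) (h2 : z.im = w.im) : ‖z‖ ≤ ‖w‖ := by
  rw [Complex.norm_def, Complex.norm_def]
  apply Real.sqrt_le_sqrt
  rw [Complex.normSq_apply, Complex.normSq_apply, h2]
  have := mul_self_le_mul_self (abs_nonneg _) h1
  rw [abs_mul_abs_self, abs_mul_abs_self] at this
  linarith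

lemma seg {U : Opens V} (C : Curve U) {r : ℝ} (hr : Metric.ball (0 : V) r ⊆ U) (Pt : V)
    (hP1 : Pt.1.re = 0) (hP2 : Pt.2.re = 0) (a b : ℝ) (hab : a ≠ 0 ∨ b ≠ 0) (g : C.S → ℂ)
    (hgo : ∀ p, 𝓝 (g p) ≤ map g (𝓝 p))
    (hu : ∀ q, C.u q = Pt + g q • (((a : ℂ), (b : ℂ)) : V))
    (hne : ∀ q, (g q).re ≠ 0) (p : C.S) : C.u p ∉ Metric.ball (0 : V) r := by
  intro hp
  let γ : unitInterval → V := fun s => Pt + (g p - ((s : ℝ) * (g p).re : ℝ)) • (((a : ℂ), (b : ℂ)) : V)
  have hγc : Continuous γ := by fun_prop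
  have hγn : ∀ s, ‖γ s‖ ≤ ‖C.u p‖ := by
    intro s
    have hs0 := s.2.1
    have hs1 := s.2.2
    have habs : |1 - (s : ℝ)| ≤ 1 := by rw [abs_le]; constructor <;> linarith
    rw [hu p]
    refine max_le_max ?_ ?_
    · apply norm_le_of_re_im
      · simp only [γ, Prod.fst_add, Prod.smul_fst, smul_eq_mul, Complex.add_re, hP1, Complex.mul_re,
          Complex.sub_re, Complex.ofReal_re, Complex.ofReal_im, mul_zero, sub_zero, zero_add]
        have : ((g p).re - (s : ℝ) * (g p).re) * a = (1 - (s : ℝ)) * ((g p).re * a) := by ring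
        rw [this, abs_mul]
        exact mul_le_of_le_one_left (abs_nonneg _) habs
      · simp [γ]
    · apply norm_le_of_re_im
      · simp only [γ, Prod.snd_add, Prod.smul_snd, smul_eq_mul, Complex.add_re, hP2, Complex.mul_re,
          Complex.sub_re, Complex.ofReal_re, Complex.ofReal_im, mul_zero, sub_zero, zero_add]
        have : ((g p).re - (s : ℝ) * (g p).re) * b = (1 - (s : ℝ)) * ((g p).re * b) := by ring
        rw [this, abs_mul]
        exact mul_le_of_le_one_left (abs_nonneg _) habs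
      · simp [γ]
  have hγU : ∀ s, γ s ∈ U := fun s => hr (by
    rw [mem_ball_zero_iff] at hp ⊢
    exact (hγn s).trans_lt hp)
  let Γ : unitInterval → U := fun s => ⟨γ s, hγU s⟩
  have hΓ : Continuous Γ := hγc.subtype_mk _
  let A : Set unitInterval := {s | ∃ q, g q = g p - ((s : ℝ) * (g p).re : ℝ)}
  have hinj : ∀ z w : ℂ, Pt + z • (((a : ℂ), (b : ℂ)) : V) = Pt + w • (((a : ℂ), (b : ℂ)) : V) →
      z = w := by
    intro z w h
    have h1 := add_left_cancel h
    rcases hab with h2 | h2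
    · have := congrArg Prod.fst h1
      simpa [h2] using this
    · have := congrArg Prod.snd h1
      simpa [h2] using this
  have hA : A = Γ ⁻¹' range (fun p => (⟨C.u p, C.maps p⟩ : U)) := by
    ext s
    simp only [A, Set.mem_ofPred_eq, mem_preimage, mem_range, Γ, Subtype.mk.injEq, γ]
    constructor
    · rintro ⟨q, hq⟩
      exact ⟨q, by rw [hu q, hq]⟩
    · rintro ⟨q, hq⟩
      exact ⟨q, hinj _ _ (by rw [← hu q, hq])⟩
  have hAcl : IsClosed A := by
    rw [hA]
    exact C.proper.isClosedMap.isClosed_range.preimage hΓ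
  have hAop : IsOpen A := by
    rw [isOpen_iff_mem_nhds]
    rintro s ⟨q, hq⟩
    have h1 : range g ∈ 𝓝 (g q) := hgo q (by rw [mem_map]; simp)
    have hc : Continuous (fun s : unitInterval => g p - (((s : ℝ) * (g p).re : ℝ) : ℂ)) := by
      fun_prop
    rw [hq] at h1
    exact hc.continuousAt.preimage_mem_nhds h1
  have huniv : A = univ := IsClopen.eq_univ ⟨hAcl, hAop⟩ ⟨0, p, by simp⟩
  have h1 : (1 : unitInterval) ∈ A := by rw [huniv]; trivial
  obtain ⟨q, hq⟩ := h1
  apply hne q
  rw [hq]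
  simp

lemma exists_shift {S : Type} [TopologicalSpace S] {g : S → ℂ} {q : S} {N : Set S}
    (hN : N ∈ 𝓝 q) (hgo : 𝓝 (g q) ≤ map g (𝓝 q)) :
    ∃ δ > 0, ∀ t : ℝ, |t| < δ → ∃ p ∈ N, g p = g q + t := by
  have h1 : g '' N ∈ 𝓝 (g q) := hgo (image_mem_map hN)
  obtain ⟨δ, hδ, hb⟩ := Metric.mem_nhds_iff.1 h1
  refine ⟨δ, hδ, fun t ht => ?_⟩
  have : g q + t ∈ Metric.ball (g q) δ := by
    rw [mem_ball_iff_norm]
    simpa using ht
  obtain ⟨p, hp, hgp⟩ := hb this
  exact ⟨p, hp, hgp⟩

lemma re_ne_zero_of_nonneg {S : Type} [TopologicalSpace S] {g : S → ℂ}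
    (hgo : ∀ p, 𝓝 (g p) ≤ map g (𝓝 p)) (h : ∀ q, 0 ≤ (g q).re) (q : S) : (g q).re ≠ 0 := by
  intro h0
  obtain ⟨δ, hδ, H⟩ := exists_shift (univ_mem (f := 𝓝 q)) (hgo q)
  obtain ⟨p, -, hp⟩ := H (-(δ / 2)) (by rw [abs_neg, abs_of_pos (by linarith)]; linarith)
  have := h p
  rw [hp] at this
  simp only [Complex.add_re, h0, Complex.ofReal_re] at this
  linarith

lemma re_ne_zero_of_nonpos {S : Type} [TopologicalSpace S] {g : S → ℂ}
    (hgo : ∀ p, 𝓝 (g p) ≤ map g (𝓝 p)) (h : ∀ q, (g q).re ≤ 0) (q : S) : (g q).re ≠ 0 := by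
  intro h0
  obtain ⟨δ, hδ, H⟩ := exists_shift (univ_mem (f := 𝓝 q)) (hgo q)
  obtain ⟨p, -, hp⟩ := H (δ / 2) (by rw [abs_of_pos (by linarith)]; linarith)
  have := h p
  rw [hp] at this
  simp only [Complex.add_re, h0, Complex.ofReal_re] at this
  linarith

lemma not_re_const {S : Type} [TopologicalSpace S] {g : S → ℂ} {q : S} {N : Set S}
    (hN : N ∈ 𝓝 q) (hgo : 𝓝 (g q) ≤ map g (𝓝 q)) {c : ℝ} (h : ∀ p ∈ N, (g p).re = c) : False := by
  obtain ⟨δ, hδ, H⟩ := exists_shift hN hgo
  obtain ⟨p, hpN, hp⟩ := H (δ / 2) (by rw [abs_of_pos (by linarith)]; linarith)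
  have h1 := h p hpN
  have h2 := h q (mem_of_mem_nhds hN)
  rw [hp] at h1
  simp only [Complex.add_re, h2, Complex.ofReal_re] at h1
  linarith

/-- A nonconstant curve contained in the support avoids every ball around `0` in `U`. -/
lemma avoid {U : Opens V} (C : Curve U) {r : ℝ} (hr : Metric.ball (0 : V) r ⊆ U)
    (hF : ∀ p, C.u p ∈ supp) (hnc : ¬ ∀ p q, C.u p = C.u q) (p : C.S) :
    C.u p ∉ Metric.ball (0 : V) r := by
  have h1 : MDifferentiable 𝓘(ℂ, ℂ) 𝓘(ℂ, ℂ) (fun q => (C.u q).1) := by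
    intro q
    exact (ContinuousLinearMap.fst ℂ ℂ ℂ).mdifferentiableAt.comp q (C.hol q)
  have h2 : MDifferentiable 𝓘(ℂ, ℂ) 𝓘(ℂ, ℂ) (fun q => (C.u q).2) := by
    intro q
    exact (ContinuousLinearMap.snd ℂ ℂ ℂ).mdifferentiableAt.comp q (C.hol q)
  have h12 : MDifferentiable 𝓘(ℂ, ℂ) 𝓘(ℂ, ℂ) (fun q => (C.u q).1 - (C.u q).2) := by
    intro q
    exact (ContinuousLinearMap.fst ℂ ℂ ℂ - ContinuousLinearMap.snd ℂ ℂ ℂ).mdifferentiableAt.comp q
      (C.hol q)
  by_cases c1 : ∀ p q, (C.u p).1 = (C.u q).1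
  · -- first coordinate constant
    have c2 : ¬ ∀ p q, (C.u p).2 = (C.u q).2 := fun h => hnc fun p q => Prod.ext (c1 p q) (h p q)
    have ho := nhds_le_of_nonconst h2 c2
    have ha : (C.u p).1.re = 0 := by
      by_contra ha
      rcases lt_or_gt_of_ne ha with ha | ha
      · refine not_re_const (univ_mem (f := 𝓝 p)) (ho p) (c := 0) fun q _ => ?_
        have hq := hF q
        rw [supp, Set.mem_ofPred_eq, c1 q p] at hq
        rcases hq with h | h | h
        · linarith [h.2]
        · linarith [h.1]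
        · exact h.1
      · refine not_re_const (univ_mem (f := 𝓝 p)) (ho p) (c := (C.u p).1.re) fun q _ => ?_
        have hq := hF q
        rw [supp, Set.mem_ofPred_eq, c1 q p] at hq
        rcases hq with h | h | h
        · exact h.1.symm
        · linarith [h.1]
        · linarith [h.2]
    have hneg : ∀ q, (C.u q).2.re ≤ 0 := by
      intro q
      have hq := hF q
      rw [supp, Set.mem_ofPred_eq, c1 q p] at hq
      rcases hq with h | h | h
      · linarith [h.1]
      · exact h.2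
      · exact h.1.le
    refine seg C hr ((C.u p).1, 0) ha (by simp) 0 1 (Or.inr one_ne_zero) (fun q => (C.u q).2) ho
      (fun q => ?_) (re_ne_zero_of_nonpos ho hneg) p
    ext <;> simp [c1 q p]
  · have ho := nhds_le_of_nonconst h1 c1
    by_cases c3 : ∃ q, (C.u q).1.re < 0
    · obtain ⟨q₀, hq₀⟩ := c3
      have hc : Continuous fun q => (C.u q).1.re := Complex.continuous_re.comp h1.continuous
      have hN : {q | (C.u q).1.re < 0} ∈ 𝓝 q₀ := (isOpen_lt hc continuous_const).mem_nhds hq₀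
      have hre0 : ∀ q ∈ {q | (C.u q).1.re < 0}, (C.u q).2.re = 0 := by
        intro q hq
        have hq' : (C.u q).1.re < 0 := hq
        rcases hF q with h | h | h
        · linarith [h.2]
        · linarith [h.1]
        · exact h.1
      have c2 : ∀ p q, (C.u p).2 = (C.u q).2 := by
        by_contra c2
        exact not_re_const hN (nhds_le_of_nonconst h2 c2 q₀) hre0
      have h20 : (C.u p).2.re = 0 := by rw [c2 p q₀]; exact hre0 q₀ hq₀
      have hneg : ∀ q, (C.u q).1.re ≤ 0 := by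
        intro q
        have h20' : (C.u q).2.re = 0 := by rw [c2 q p]; exact h20
        rcases hF q with h | h | h
        · linarith [h.1]
        · exact h.1.le
        · exact h.2
      refine seg C hr (0, (C.u p).2) (by simp) h20 1 0 (Or.inl one_ne_zero) (fun q => (C.u q).1) ho
        (fun q => ?_) (re_ne_zero_of_nonpos ho hneg) p
      ext <;> simp [c2 q p]
    · push Not at c3
      have hne := re_ne_zero_of_nonneg ho c3
      have heq : ∀ q, ((C.u q).1 - (C.u q).2).re = 0 := by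
        intro q
        have hq0 := hne q
        have hq1 := c3 q
        rcases hF q with h | h | h
        · simp [h.1]
        · exact absurd h.1 hq0
        · exact absurd (le_antisymm h.2 hq1) hq0
      have c2 : ∀ p q, (C.u p).1 - (C.u p).2 = (C.u q).1 - (C.u q).2 := by
        by_contra c2
        exact not_re_const (univ_mem (f := 𝓝 p)) (nhds_le_of_nonconst h12 c2 p)
          (fun q _ => heq q)
      refine seg C hr (0, (C.u p).2 - (C.u p).1) (by simp) (by simpa using (by
        have := heq p; rw [Complex.sub_re] at this; linarith)) 1 1 (Or.inl one_ne_zero)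
        (fun q => (C.u q).1) ho (fun q => ?_) hne p
      ext
      · simp
      · have := c2 q p
        have h3 : (C.u q).2 = (C.u p).2 - (C.u p).1 + (C.u q).1 := by linear_combination -this
        simpa using h3

end Pool.Agent.N528.LeafCyc
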