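import Pool.Agent.N528.LeafCyc.Half

/-!
# Leafwise complex cycles: the tropical cycle
-/

open TopologicalSpace MeasureTheory Set Function Filter Topology
open scoped Distributions CompactConvergenceCLM ContDiff Manifold NNReal unitInterval

noncomputable section

namespace Pool.Agent.N528.LeafCyc

/-- `(s, y₁, y₂) ↦ (s a + i y₁, s b + i y₂)` -/
def PL (a b : ℝ) : (ℝ × (ℝ × ℝ)) →L[ℝ] V := LinearMap.toContinuousLinearMap
  { toFun := fun q => ((⟨q.1 * a, q.2.1⟩ : ℂ), (⟨q.1 * b, q.2.2⟩ : ℂ))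
    map_add' := by
      intro x y
      refine Prod.ext (Complex.ext ?_ ?_) (Complex.ext ?_ ?_) <;> simp <;> ring
    map_smul' := by
      intro c x
      refine Prod.ext (Complex.ext ?_ ?_) (Complex.ext ?_ ?_) <;> simp <;> ring }

lemma PL_apply (a b : ℝ) (q : ℝ × (ℝ × ℝ)) :
    PL a b q = ((⟨q.1 * a, q.2.1⟩ : ℂ), (⟨q.1 * b, q.2.2⟩ : ℂ)) := rfl

lemma norm_PL {a b : ℝ} (hab : 1 ≤ max |a| |b|) (q : ℝ × (ℝ × ℝ)) : ‖q‖ ≤ ‖PL a b q‖ := by
  have h1 : ‖(⟨q.1 * a, q.2.1⟩ : ℂ)‖ ≤ ‖PL a b q‖ := by rw [PL_apply]; exact le_max_left _ _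
  have h2 : ‖(⟨q.1 * b, q.2.2⟩ : ℂ)‖ ≤ ‖PL a b q‖ := by rw [PL_apply]; exact le_max_right _ _
  have h3 := Complex.abs_im_le_norm (⟨q.1 * a, q.2.1⟩ : ℂ)
  have h4 := Complex.abs_im_le_norm (⟨q.1 * b, q.2.2⟩ : ℂ)
  have h5 := Complex.abs_re_le_norm (⟨q.1 * a, q.2.1⟩ : ℂ)
  have h6 := Complex.abs_re_le_norm (⟨q.1 * b, q.2.2⟩ : ℂ)
  simp only at h3 h4 h5 h6
  rw [abs_mul] at h5 h6
  refine max_le ?_ (max_le (h3.trans h1) (h4.trans h2))
  rw [Real.norm_eq_abs]
  rcases le_max_iff.1 hab with h | h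
  · exact (le_mul_of_one_le_right (abs_nonneg _) h).trans (h5.trans h1)
  · exact (le_mul_of_one_le_right (abs_nonneg _) h).trans (h6.trans h2)

lemma isClosedEmbedding_PL {a b : ℝ} (hab : 1 ≤ max |a| |b|) : IsClosedEmbedding (PL a b) := by
  have h : AntilipschitzWith 1 (PL a b) :=
    (PL a b).antilipschitz_of_bound fun q => by simpa using norm_PL hab q
  exact h.isClosedEmbedding (PL a b).uniformContinuous

/-- the measure carried by the half space `{s a + i y₁, s b + i y₂ : s > 0}` -/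
def legMeasure (a b : ℝ) : Measure V :=
  Measure.map (PL a b) ((volume : Measure (ℝ × (ℝ × ℝ))).restrict (Ioi 0 ×ˢ univ))

lemma finite_compacts {a b : ℝ} (hab : 1 ≤ max |a| |b|) :
    IsFiniteMeasureOnCompacts (legMeasure a b) := by
  constructor
  intro K hK
  rw [legMeasure, Measure.map_apply (PL a b).continuous.measurable hK.measurableSet]
  exact ((isClosedEmbedding_PL hab).isCompact_preimage hK).measure_lt_top

lemma locFinite {a b : ℝ} (hab : 1 ≤ max |a| |b|) : IsLocallyFiniteMeasure (legMeasure a b) := by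
  have := finite_compacts hab
  infer_instance

/-- the direction vector of a leg -/
def dir (a b : ℝ) : V := ((a : ℂ), (b : ℂ))

/-- the leg: integration over the half lines `s ↦ s w + i y`, direction `w ∧ i w`. -/
def leg (a b : ℝ) : Current 2 ⊤ :=
  (TestFunction.integralAgainstBilinCLM (ContinuousLinearMap.apply ℝ ℝ) (legMeasure a b)
    (fun _ => wedge (dir a b) (Complex.I • dir a b)) : 𝓓((⊤ : Opens V), Form 2) →L[ℝ] ℝ)

lemma leg_apply {a b : ℝ} (hab : 1 ≤ max |a| |b|) (α : 𝓓((⊤ : Opens V), Form 2)) :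
    leg a b α = ∫ q in (Ioi (0 : ℝ) ×ˢ (univ : Set (ℝ × ℝ))),
      α (PL a b q) ![dir a b, Complex.I • dir a b] := by
  have := locFinite hab
  have h1 : leg a b α = ∫ x, (ContinuousLinearMap.apply ℝ ℝ) (α x)
      (wedge (dir a b) (Complex.I • dir a b)) ∂(legMeasure a b) :=
    TestFunction.integralAgainstBilinCLM_eq_integral
      ((locallyIntegrable_const _).locallyIntegrableOn _)
  rw [h1, legMeasure, (isClosedEmbedding_PL hab).measurableEmbedding.integral_map]
  rfl

/-- the tropical cycle -/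
def cyc : Current 2 ⊤ := leg 1 1 + leg (-1) 0 + leg 0 (-1)

lemma h11 : (1 : ℝ) ≤ max |(1 : ℝ)| |(1 : ℝ)| := by simp
lemma h10 : (1 : ℝ) ≤ max |(-1 : ℝ)| |(0 : ℝ)| := by simp
lemma h01 : (1 : ℝ) ≤ max |(0 : ℝ)| |(-1 : ℝ)| := by simp

lemma PL_ds (a b : ℝ) : PL a b (1, 0) = dir a b := by
  rw [PL_apply, dir]
  refine Prod.ext (Complex.ext ?_ ?_) (Complex.ext ?_ ?_) <;> simp

lemma PL_dy (a b : ℝ) : PL a b (0, (a, b)) = Complex.I • dir a b := by
  rw [PL_apply, dir]
  refine Prod.ext (Complex.ext ?_ ?_) (Complex.ext ?_ ?_) <;> simp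

lemma dT_apply {U : Opens V} (β : 𝓓(U, Form 1)) (x v w : V) :
    dT β x ![v, w] = (fderiv ℝ β x v) ![w] - (fderiv ℝ β x w) ![v] := by
  have h : dT β x = extDeriv β x := rfl
  rw [h, extDeriv, ContinuousAlternatingMap.alternatizeUncurryFin_apply]
  rw [Fin.sum_univ_two]
  have e0 : Fin.removeNth 0 ![v, w] = ![w] := by
    funext i; fin_cases i; rfl
  have e1 : Fin.removeNth 1 ![v, w] = ![v] := by
    funext i; fin_cases i; rfl
  rw [e0, e1]
  simp [sub_eq_add_neg]

lemma leg_boundary {a b : ℝ} (hab : 1 ≤ max |a| |b|) (β : 𝓓((⊤ : Opens V), Form 1)) :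
    leg a b (dT β) = - ∫ y : ℝ × ℝ, β (PL 0 0 (0, y)) ![Complex.I • dir a b] := by
  have hβ : ContDiff ℝ 1 β := β.contDiff.of_le (by simp)
  have key : ∀ v : V, ContDiff ℝ 1 (fun q => β (PL a b q) ![v]) ∧
      HasCompactSupport (fun q => β (PL a b q) ![v]) ∧
      ∀ q r, fderiv ℝ (fun q => β (PL a b q) ![v]) q r = (fderiv ℝ β (PL a b q) (PL a b r)) ![v] := by
    intro v
    let ev : Form 1 →L[ℝ] ℝ := ContinuousAlternatingMap.apply ℝ V ℝ ![v]
    refine ⟨ev.contDiff.comp (hβ.comp (PL a b).contDiff), ?_, ?_⟩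
    · have h1 : HasCompactSupport (β ∘ PL a b) :=
        β.hasCompactSupport.comp_isClosedEmbedding (isClosedEmbedding_PL hab)
      exact h1.comp_left (g := ev) (map_zero ev)
    · intro q r
      have h2 : HasFDerivAt (fun q => β (PL a b q) ![v])
          (ev.comp ((fderiv ℝ β (PL a b q)).comp (PL a b))) q :=
        ev.hasFDerivAt.comp q ((hβ.differentiable one_ne_zero _).hasFDerivAt.comp q
          (PL a b).hasFDerivAt)
      rw [h2.fderiv]
      rfl
  obtain ⟨f1, f2, f3⟩ := key (Complex.I • dir a b)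
  obtain ⟨g1, g2, g3⟩ := key (dir a b)
  rw [leg_apply hab]
  have hint : ∀ q, dT β (PL a b q) ![dir a b, Complex.I • dir a b] =
      fderiv ℝ (fun q => β (PL a b q) ![Complex.I • dir a b]) q (1, 0) -
      fderiv ℝ (fun q => β (PL a b q) ![dir a b]) q (0, (a, b)) := by
    intro q
    rw [dT_apply, f3, g3, PL_ds, PL_dy]
  simp only [hint]
  rw [integral_sub (integrable_fderiv_apply f1 f2 _).integrableOn
    (integrable_fderiv_apply g1 g2 _).integrableOn, int_ds f1 f2, int_dy g1 g2, sub_zero]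
  congr 1
  refine integral_congr_ae (Eventually.of_forall fun y => ?_)
  simp [PL_apply]

lemma isCycle_cyc : IsCycle cyc := by
  intro β
  have h0 : cyc (dT β) = leg 1 1 (dT β) + leg (-1) 0 (dT β) + leg 0 (-1) (dT β) := rfl
  rw [h0, leg_boundary h11, leg_boundary h10, leg_boundary h01]
  have hc : Continuous (β : V → Form 1) := β.continuous
  have hP : IsClosedEmbedding (fun y : ℝ × ℝ => PL 0 0 (0, y)) := by
    have h : AntilipschitzWith 1 ((PL 0 0).comp (ContinuousLinearMap.inr ℝ ℝ (ℝ × ℝ))) := by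
      refine ContinuousLinearMap.antilipschitz_of_bound _ fun y => ?_
      simp only [ContinuousLinearMap.comp_apply, ContinuousLinearMap.inr_apply, PL_apply]
      have h3 := Complex.abs_im_le_norm (⟨0 * 0, y.1⟩ : ℂ)
      have h4 := Complex.abs_im_le_norm (⟨0 * 0, y.2⟩ : ℂ)
      simp only at h3 h4
      simp only [NNReal.coe_one, one_mul]
      exact max_le_max h3 h4
    exact h.isClosedEmbedding (ContinuousLinearMap.uniformContinuous _)
  have hi : ∀ v : V, Integrable (fun y : ℝ × ℝ => β (PL 0 0 (0, y)) ![v]) := by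
    intro v
    let ev : Form 1 →L[ℝ] ℝ := ContinuousAlternatingMap.apply ℝ V ℝ ![v]
    refine Continuous.integrable_of_hasCompactSupport ?_ ?_
    · exact ev.continuous.comp (hc.comp hP.continuous)
    · exact (β.hasCompactSupport.comp_isClosedEmbedding hP).comp_left (g := ev) (map_zero ev)
  have h12 : Integrable (fun y : ℝ × ℝ => β (PL 0 0 (0, y)) ![Complex.I • dir 1 1] +
      β (PL 0 0 (0, y)) ![Complex.I • dir (-1) 0]) := (hi _).add (hi _)
  have hz : ∀ y : ℝ × ℝ, (β (PL 0 0 (0, y)) ![Complex.I • dir 1 1] +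
      β (PL 0 0 (0, y)) ![Complex.I • dir (-1) 0]) +
      β (PL 0 0 (0, y)) ![Complex.I • dir 0 (-1)] = 0 := by
    intro y
    set η := β (PL 0 0 (0, y))
    have hadd : ∀ v w : V, η ![v + w] = η ![v] + η ![w] := by
      intro v w
      have := η.map_update_add (fun _ => 0) 0 v w
      have e : ∀ v : V, update (fun _ : Fin 1 => (0 : V)) 0 v = ![v] := by
        intro v; ext i <;> fin_cases i <;> rfl
      simpa [e] using this
    have h1 : η ![Complex.I • dir 1 1 + Complex.I • dir (-1) 0 + Complex.I • dir 0 (-1)] =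
        η ![Complex.I • dir 1 1] + η ![Complex.I • dir (-1) 0] + η ![Complex.I • dir 0 (-1)] := by
      rw [hadd, hadd]
    have h2 : Complex.I • dir 1 1 + Complex.I • dir (-1) 0 + Complex.I • dir 0 (-1) = 0 := by
      ext <;> simp [dir]
    have h3 : η ![(0 : V)] = 0 := by
      have := hadd 0 0
      simp only [add_zero] at this
      linarith
    rw [h2, h3] at h1
    linarith
  have hsum : (∫ y : ℝ × ℝ, β (PL 0 0 (0, y)) ![Complex.I • dir 1 1]) +
      (∫ y : ℝ × ℝ, β (PL 0 0 (0, y)) ![Complex.I • dir (-1) 0]) +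
      ∫ y : ℝ × ℝ, β (PL 0 0 (0, y)) ![Complex.I • dir 0 (-1)] = 0 := by
    rw [← integral_add (hi _) (hi _), ← integral_add h12 (hi _)]
    simp only [hz, integral_zero]
  linarith

end Pool.Agent.N528.LeafCyc
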