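import Mathlib

/-!
# Leafwise complex cycles on `ℂ²` and pseudoholomorphic curves: definitions
-/

open TopologicalSpace MeasureTheory Set Function Filter Topology
open scoped Distributions CompactConvergenceCLM ContDiff Manifold NNReal

noncomputable section

namespace Pool.Agent.N528.LeafCyc

/-- The manifold `M = ℂ²` (real dimension `4`), foliated by the single leaf `ℂ²`, with the
leafwise complex structure `J v = i • v`. -/
abbrev V := ℂ × ℂ

/-- Alternating real `k`-forms on the tangent space `V` of `ℂ²`. -/
abbrev Form (k : ℕ) := V [⋀^Fin k]→L[ℝ] ℝ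

/-- `k`-currents on the open set `U`: continuous linear functionals on the space of smooth
`k`-forms with compact support in `U` (with its usual `LF` topology). The space of currents
carries the topology of uniform convergence on compact sets of test forms (Mathlib's topology
on distributions). -/
abbrev Current (k : ℕ) (U : Opens V) := 𝓓(U, Form k) →L_c[ℝ] ℝ

/-- The exterior derivative of a smooth form with compact support in `U`. -/
def dT {k : ℕ} {U : Opens V} (β : 𝓓(U, Form k)) : 𝓓(U, Form (k + 1)) where
  toFun := extDeriv β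
  contDiff' := by
    have h1 : ContDiff ℝ ∞ (fderiv ℝ β) := β.contDiff.fderiv_right (by simp)
    exact (ContinuousAlternatingMap.alternatizeUncurryFinCLM ℝ V ℝ).contDiff.comp h1
  hasCompactSupport' := by
    have h1 : HasCompactSupport (fderiv ℝ β) := β.hasCompactSupport.fderiv ℝ
    exact h1.comp_left (g := ContinuousAlternatingMap.alternatizeUncurryFinCLM ℝ V ℝ) (map_zero _)
  tsupport_subset' := by
    refine (closure_mono ?_).trans ((tsupport_fderiv_subset ℝ (f := β)).trans β.tsupport_subset)
    intro x hx
    simp only [Function.mem_support, extDeriv] at hx ⊢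
    intro h
    apply hx
    rw [h]
    exact map_zero (ContinuousAlternatingMap.alternatizeUncurryFinCLM ℝ V ℝ)

/-- A current is a cycle if its boundary `(∂c)(β) = c(dβ)` vanishes. -/
def IsCycle {k : ℕ} {U : Opens V} (c : Current (k + 1) U) : Prop :=
  ∀ β : 𝓓(U, Form k), c (dT β) = 0

/-- A `2`-vector `ξ ∈ Λ²V`, viewed as a functional on alternating `2`-forms; this is the
decomposable `2`-vector `v ∧ w`. -/
def wedge (v w : V) : Form 2 →L[ℝ] ℝ :=
  ContinuousAlternatingMap.apply ℝ V ℝ ![v, w]

/-- The structure cone of `J` (the same at every point of `ℂ²`): the closed convex cone generated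
by the `2`-vectors `v ∧ J v`. -/
def structureCone : Set (Form 2 →L[ℝ] ℝ) :=
  closure (Submodule.span ℝ≥0 {ξ | ∃ v : V, ξ = wedge v (Complex.I • v)} : Set (Form 2 →L[ℝ] ℝ))

/-- The Dirac current `α ↦ α_y(ξ)` of a `2`-vector `ξ` at `y`. -/
def dirac (U : Opens V) (y : V) (ξ : Form 2 →L[ℝ] ℝ) : Current 2 U where
  toFun α := ξ (α y)
  map_add' α β := by simp
  map_smul' r α := by simp
  cont := ξ.continuous.comp (continuous_eval_const y)

/-- `C`-currents on `U`: elements of the closed convex cone generated by the Dirac currents of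
elements of the structure cone. -/
def IsCCurrent {U : Opens V} (c : Current 2 U) : Prop :=
  c ∈ closure (Submodule.span ℝ≥0 {T : Current 2 U | ∃ y ∈ U, ∃ ξ ∈ structureCone,
    T = dirac U y ξ} : Set (Current 2 U))

/-- The restriction of a current on `ℂ²` to an open set `U`. -/
def restr (U : Opens V) (c : Current 2 ⊤) : Current 2 U :=
  (c : 𝓓((⊤ : Opens V), Form 2) →L[ℝ] ℝ).comp (TestFunction.monoCLM ℝ)

/-- A proper holomorphic map `u : S → U` from a connected Riemann surface `S`. -/
structure Curve (U : Opens V) where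
  /-- the Riemann surface -/
  S : Type
  [top : TopologicalSpace S]
  [t2 : T2Space S]
  [conn : ConnectedSpace S]
  [charted : ChartedSpace ℂ S]
  [mfd : IsManifold 𝓘(ℂ, ℂ) 1 S]
  /-- the map -/
  u : S → V
  maps : ∀ p, u p ∈ U
  proper : IsProperMap (fun p => (⟨u p, maps p⟩ : U))
  hol : MDifferentiable 𝓘(ℂ, ℂ) 𝓘(ℂ, V) u

attribute [instance] Curve.top Curve.t2 Curve.conn Curve.charted Curve.mfd

/-- The density, in the chart `e` of `S`, of the `2`-form `u^*α`:
`(u^*α)_z(1, i) = α_{u(z)}(du(1), du(i))`. -/
def pull {S : Type} [TopologicalSpace S] (u : S → V) (e : OpenPartialHomeomorph S ℂ)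
    (α : V → Form 2) (z : ℂ) : ℝ :=
  α (u (e.symm z)) ![fderiv ℝ (u ∘ e.symm) z 1, fderiv ℝ (u ∘ e.symm) z Complex.I]

/-- `T` is the current of integration `α ↦ ∫_S u^*α`; the integral is computed by means of a
partition of unity subordinate to a family of charts. -/
def IsIntegration {U : Opens V} (C : Curve U) (T : Current 2 U) : Prop :=
  ∃ (ι : Type) (e : ι → OpenPartialHomeomorph C.S ℂ) (ρ : PartitionOfUnity ι C.S univ),
    (∀ i, e i ∈ atlas ℂ C.S) ∧ ρ.IsSubordinate (fun i => (e i).source) ∧
    ∀ α : 𝓓(U, Form 2),
      HasSum (fun i => ∫ z in (e i).target, ρ i ((e i).symm z) * pull C.u (e i) α z) (T α)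

/-- The set `𝒫_U` of (currents of integration over) pseudoholomorphic curves in `U`. -/
def PU (U : Opens V) : Set (Current 2 U) := {T | ∃ C : Curve U, IsIntegration C T}

/-- `c` is a non-negative superposition of pseudoholomorphic curves in `U`: there is a measure
`ν` on `𝒫_U` (for some `σ`-algebra) with `c(α) = ∫ c'(α) dν(c')` for all test forms `α`, the
integrals being absolutely convergent. -/
def IsSuperposition {U : Opens V} (c : Current 2 U) : Prop :=
  ∃ (_ : MeasurableSpace (PU U)) (ν : Measure (PU U)), ∀ α : 𝓓(U, Form 2),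
    Integrable (fun T : PU U => T.1 α) ν ∧ c α = ∫ T : PU U, T.1 α ∂ν

end Pool.Agent.N528.LeafCyc
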