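import Pool.Agent.N528.LeafCyc.Pos

/-!
# Leafwise complex cycles: integration of derivatives over a half space
-/

open TopologicalSpace MeasureTheory Set Function Filter Topology
open scoped Distributions CompactConvergenceCLM ContDiff Manifold NNReal unitInterval

noncomputable section

namespace Pool.Agent.N528.LeafCyc

lemma integral_fderiv_zero {k : ℝ × ℝ → ℝ} (hk : ContDiff ℝ 1 k) (hc : HasCompactSupport k)
    (v : ℝ × ℝ) : ∫ y, fderiv ℝ k y v = 0 := by
  have hd : Differentiable ℝ k := hk.differentiable one_ne_zero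
  have hcont : Continuous (fun y => fderiv ℝ k y v) :=
    (hk.continuous_fderiv one_ne_zero).clm_apply continuous_const
  have hcs : HasCompactSupport (fun y => fderiv ℝ k y v) := hc.fderiv_apply ℝ v
  have := integral_mul_fderiv_eq_neg_fderiv_mul_of_integrable (μ := (volume : Measure (ℝ × ℝ)))
    (f := fun _ : ℝ × ℝ => (1 : ℝ)) (g := k) (v := v) (by simp)
    (by simpa using hcont.integrable_of_hasCompactSupport hcs)
    (by simpa using hk.continuous.integrable_of_hasCompactSupport hc)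
    (fun x _ => by fun_prop) (fun x _ => hd x)
  simpa using this

lemma hasFDerivAt_slice {f : ℝ × (ℝ × ℝ) → ℝ} (hf : ContDiff ℝ 1 f) (s : ℝ) (y : ℝ × ℝ) :
    HasFDerivAt (fun y => f (s, y)) ((fderiv ℝ f (s, y)).comp (ContinuousLinearMap.inr ℝ ℝ (ℝ × ℝ)))
      y := by
  have h1 : HasFDerivAt f (fderiv ℝ f (s, y)) (s, y) :=
    (hf.differentiable one_ne_zero _).hasFDerivAt
  exact h1.comp y (hasFDerivAt_prodMk_right s y)

lemma hasDerivAt_slice {f : ℝ × (ℝ × ℝ) → ℝ} (hf : ContDiff ℝ 1 f) (s : ℝ) (y : ℝ × ℝ) :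
    HasDerivAt (fun s => f (s, y)) (fderiv ℝ f (s, y) (1, 0)) s := by
  have h1 : HasFDerivAt f (fderiv ℝ f (s, y)) (s, y) :=
    (hf.differentiable one_ne_zero _).hasFDerivAt
  have h2 := (h1.comp s (hasFDerivAt_prodMk_left s y)).hasDerivAt
  have h3 : ((fderiv ℝ f (s, y)).comp (ContinuousLinearMap.inl ℝ ℝ (ℝ × ℝ))) 1 =
      fderiv ℝ f (s, y) (1, 0) := by simp
  rw [h3] at h2
  exact h2

lemma compactSupport_slice {f : ℝ × (ℝ × ℝ) → ℝ} (hc : HasCompactSupport f) (s : ℝ) :
    HasCompactSupport (fun y => f (s, y)) := by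
  refine HasCompactSupport.intro (K := Prod.snd '' (tsupport f)) (hc.image continuous_snd) ?_
  intro y hy
  by_contra h
  exact hy ⟨(s, y), subset_tsupport _ h, rfl⟩

lemma compactSupport_slice' {f : ℝ × (ℝ × ℝ) → ℝ} (hc : HasCompactSupport f) (y : ℝ × ℝ) :
    HasCompactSupport (fun s => f (s, y)) := by
  refine HasCompactSupport.intro (K := Prod.fst '' (tsupport f)) (hc.image continuous_fst) ?_
  intro s hs
  by_contra h
  exact hs ⟨(s, y), subset_tsupport _ h, rfl⟩

lemma integrable_fderiv_apply {f : ℝ × (ℝ × ℝ) → ℝ} (hf : ContDiff ℝ 1 f)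
    (hc : HasCompactSupport f) (v : ℝ × (ℝ × ℝ)) :
    Integrable (fun q => fderiv ℝ f q v) :=
  ((hf.continuous_fderiv one_ne_zero).clm_apply continuous_const).integrable_of_hasCompactSupport
    (hc.fderiv_apply ℝ v)

lemma restrict_half : ((volume : Measure (ℝ × (ℝ × ℝ))).restrict (Ioi 0 ×ˢ univ)) =
    ((volume : Measure ℝ).restrict (Ioi 0)).prod (volume : Measure (ℝ × ℝ)) := by
  rw [Measure.volume_eq_prod ℝ (ℝ × ℝ), ← Measure.prod_restrict, Measure.restrict_univ]

lemma int_dy {f : ℝ × (ℝ × ℝ) → ℝ} (hf : ContDiff ℝ 1 f) (hc : HasCompactSupport f)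
    (v : ℝ × ℝ) : ∫ q in (Ioi (0 : ℝ) ×ˢ (univ : Set (ℝ × ℝ))), fderiv ℝ f q (0, v) = 0 := by
  have hi := (integrable_fderiv_apply hf hc (0, v)).integrableOn (s := Ioi (0 : ℝ) ×ˢ univ)
  rw [IntegrableOn, restrict_half] at hi
  rw [restrict_half, integral_prod _ hi]
  have : ∀ s : ℝ, ∫ y, fderiv ℝ f (s, y) (0, v) = 0 := by
    intro s
    have h0 := integral_fderiv_zero (k := fun y => f (s, y)) (hf.comp (by fun_prop))
      (compactSupport_slice hc s) v
    refine Eq.trans ?_ h0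
    refine integral_congr_ae (Eventually.of_forall fun y => ?_)
    show fderiv ℝ f (s, y) (0, v) = fderiv ℝ (fun y => f (s, y)) y v
    rw [(hasFDerivAt_slice hf s y).fderiv]
    simp
  simp [this]

lemma int_ds {f : ℝ × (ℝ × ℝ) → ℝ} (hf : ContDiff ℝ 1 f) (hc : HasCompactSupport f) :
    ∫ q in (Ioi (0 : ℝ) ×ˢ (univ : Set (ℝ × ℝ))), fderiv ℝ f q (1, 0) =
      - ∫ y, f (0, y) := by
  have hi := (integrable_fderiv_apply hf hc (1, 0)).integrableOn (s := Ioi (0 : ℝ) ×ˢ univ)
  rw [IntegrableOn, restrict_half] at hi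
  rw [restrict_half, integral_prod_symm _ hi, ← integral_neg]
  refine integral_congr_ae (Eventually.of_forall fun y => ?_)
  have h0 := (compactSupport_slice' hc y).integral_Ioi_deriv_eq
    (hf.comp (by fun_prop : ContDiff ℝ 1 fun s : ℝ => (s, y))) 0
  have h1 : -f (0, y) = ∫ s in Ioi (0 : ℝ), deriv (fun s => f (s, y)) s := h0.symm
  show ∫ s in Ioi (0 : ℝ), fderiv ℝ f (s, y) (1, 0) = -f (0, y)
  rw [h1]
  refine integral_congr_ae (Eventually.of_forall fun s => ?_)
  exact (hasDerivAt_slice hf s y).deriv.symm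

end Pool.Agent.N528.LeafCyc
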