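import Pool.Agent.N528.LeafCyc.CCone

/-!
# Leafwise complex cycles: the tropical cycle is not locally a superposition of curves
-/

open TopologicalSpace MeasureTheory Set Function Filter Topology
open scoped Distributions CompactConvergenceCLM ContDiff Manifold NNReal unitInterval ENNReal
  BoundedContinuousFunction

noncomputable section

namespace Pool.Agent.N528.LeafCyc

/-- the test form `φ ω` -/
def Lam {U : Opens V} (φ : 𝓓(U, ℝ)) : 𝓓(U, Form 2) :=
  TestFunction.postcompCLM (𝕜 := ℝ) (ContinuousLinearMap.toSpanSingleton ℝ kahler) φ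

lemma Lam_apply {U : Opens V} (φ : 𝓓(U, ℝ)) (x : V) : Lam φ x = φ x • kahler := by
  have : (Lam φ : V → Form 2) = (ContinuousLinearMap.toSpanSingleton ℝ kahler) ∘ φ :=
    TestFunction.postcompCLM_apply _ _
  rw [this]
  simp

/-- the restriction evaluated on a test form on `U` -/
lemma restr_apply {U : Opens V} (c : Current 2 ⊤) (α : 𝓓(U, Form 2)) :
    ∃ α' : 𝓓((⊤ : Opens V), Form 2), (∀ x, α' x = α x) ∧ restr U c α = c α' := by
  refine ⟨TestFunction.monoCLM ℝ α, fun x => ?_, rfl⟩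
  rw [TestFunction.monoCLM_apply]
  simp

lemma leg_kahler {a b : ℝ} (hab : 1 ≤ max |a| |b|) {α : 𝓓((⊤ : Opens V), Form 2)} {φ : V → ℝ}
    (hα : ∀ x, α x = φ x • kahler) :
    leg a b α = ∫ q in (Ioi (0 : ℝ) ×ˢ (univ : Set (ℝ × ℝ))), φ (PL a b q) * (a ^ 2 + b ^ 2) := by
  rw [leg_apply hab]
  refine integral_congr_ae (Eventually.of_forall fun q => ?_)
  show α (PL a b q) ![dir a b, Complex.I • dir a b] = φ (PL a b q) * (a ^ 2 + b ^ 2)
  rw [hα, ContinuousAlternatingMap.smul_apply, kahler_self, smul_eq_mul]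
  simp [dir]

lemma cyc_zero {α : 𝓓((⊤ : Opens V), Form 2)} {φ : V → ℝ}
    (hα : ∀ x, α x = φ x • kahler) (h0 : ∀ x ∈ supp, φ x = 0) : cyc α = 0 := by
  have h1 : cyc α = leg 1 1 α + leg (-1) 0 α + leg 0 (-1) α := rfl
  have hS : MeasurableSet (Ioi (0 : ℝ) ×ˢ (univ : Set (ℝ × ℝ))) :=
    measurableSet_Ioi.prod MeasurableSet.univ
  rw [h1, leg_kahler h11 hα, leg_kahler h10 hα, leg_kahler h01 hα]
  have e1 : ∫ q in (Ioi (0 : ℝ) ×ˢ (univ : Set (ℝ × ℝ))), φ (PL 1 1 q) * ((1 : ℝ) ^ 2 + 1 ^ 2)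
      = 0 := by
    refine setIntegral_eq_zero_of_forall_eq_zero fun q hq => ?_
    have hq1 : 0 < q.1 := hq.1
    rw [h0, zero_mul]
    left
    simp [PL_apply, hq1.le]
  have e2 : ∫ q in (Ioi (0 : ℝ) ×ˢ (univ : Set (ℝ × ℝ))),
      φ (PL (-1) 0 q) * ((-1 : ℝ) ^ 2 + 0 ^ 2) = 0 := by
    refine setIntegral_eq_zero_of_forall_eq_zero fun q hq => ?_
    have hq1 : 0 < q.1 := hq.1
    rw [h0, zero_mul]
    right; right
    simp [PL_apply, hq1.le]
  have e3 : ∫ q in (Ioi (0 : ℝ) ×ˢ (univ : Set (ℝ × ℝ))),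
      φ (PL 0 (-1) q) * ((0 : ℝ) ^ 2 + (-1) ^ 2) = 0 := by
    refine setIntegral_eq_zero_of_forall_eq_zero fun q hq => ?_
    have hq1 : 0 < q.1 := hq.1
    rw [h0, zero_mul]
    right; left
    simp [PL_apply, hq1.le]
  rw [e1, e2, e3]
  norm_num

lemma cyc_pos {α : 𝓓((⊤ : Opens V), Form 2)} {φ : V → ℝ}
    (hα : ∀ x, α x = φ x • kahler) (hφc : Continuous φ) (hφs : HasCompactSupport φ)
    (h0 : ∀ x, 0 ≤ φ x) (h1 : 0 < φ 0) : 0 < cyc α := by
  have h2 : cyc α = leg 1 1 α + leg (-1) 0 α + leg 0 (-1) α := rfl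
  have hS : MeasurableSet (Ioi (0 : ℝ) ×ˢ (univ : Set (ℝ × ℝ))) :=
    measurableSet_Ioi.prod MeasurableSet.univ
  rw [h2, leg_kahler h11 hα, leg_kahler h10 hα, leg_kahler h01 hα]
  have e2 : 0 ≤ ∫ q in (Ioi (0 : ℝ) ×ˢ (univ : Set (ℝ × ℝ))),
      φ (PL (-1) 0 q) * ((-1 : ℝ) ^ 2 + 0 ^ 2) :=
    setIntegral_nonneg hS fun q _ => by have := h0 (PL (-1) 0 q); positivity
  have e3 : 0 ≤ ∫ q in (Ioi (0 : ℝ) ×ˢ (univ : Set (ℝ × ℝ))),
      φ (PL 0 (-1) q) * ((0 : ℝ) ^ 2 + (-1) ^ 2) :=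
    setIntegral_nonneg hS fun q _ => by have := h0 (PL 0 (-1) q); positivity
  have e1 : 0 < ∫ q in (Ioi (0 : ℝ) ×ˢ (univ : Set (ℝ × ℝ))),
      φ (PL 1 1 q) * ((1 : ℝ) ^ 2 + 1 ^ 2) := by
    have hcont : Continuous (fun q => φ (PL 1 1 q) * ((1 : ℝ) ^ 2 + 1 ^ 2)) :=
      (hφc.comp (PL 1 1).continuous).mul continuous_const
    have hcs : HasCompactSupport (fun q => φ (PL 1 1 q) * ((1 : ℝ) ^ 2 + 1 ^ 2)) :=
      (hφs.comp_isClosedEmbedding (isClosedEmbedding_PL h11)).mul_right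
    rw [setIntegral_pos_iff_support_of_nonneg_ae
      (Eventually.of_forall fun q => by
        have := h0 (PL 1 1 q)
        show 0 ≤ φ (PL 1 1 q) * ((1 : ℝ) ^ 2 + 1 ^ 2)
        positivity)
      (hcont.integrable_of_hasCompactSupport hcs).integrableOn]
    have hop : IsOpen (support (fun q => φ (PL 1 1 q) * ((1 : ℝ) ^ 2 + 1 ^ 2)) ∩
        (Ioi (0 : ℝ) ×ˢ (univ : Set (ℝ × ℝ)))) :=
      hcont.isOpen_support.inter (isOpen_Ioi.prod isOpen_univ)
    refine hop.measure_pos _ ?_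
    -- find a point `(ε, 0, 0)`
    have hc2 : Continuous fun s : ℝ => φ (PL 1 1 (s, 0)) :=
      hφc.comp ((PL 1 1).continuous.comp (by fun_prop))
    have hpos0 : 0 < φ (PL 1 1 ((0 : ℝ), 0)) := by
      have : PL 1 1 ((0 : ℝ), (0 : ℝ × ℝ)) = 0 := map_zero (PL 1 1)
      rw [this]
      exact h1
    have hev : ∀ᶠ s in 𝓝[>] (0 : ℝ), 0 < φ (PL 1 1 (s, 0)) :=
      (hc2.continuousAt.eventually (lt_mem_nhds hpos0)).filter_mono nhdsWithin_le_nhds
    obtain ⟨s, hs1, hs2⟩ := (hev.and self_mem_nhdsWithin).exists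
    refine ⟨(s, 0), ?_, hs2, trivial⟩
    rw [mem_support]
    positivity
  linarith

lemma zero_of_pull_zero {U : Opens V} {C : Curve U} {T : Current 2 U} (h : IsIntegration C T)
    {α : 𝓓(U, Form 2)} {φ : V → ℝ} (hα : ∀ x, α x = φ x • kahler)
    (h0 : (∀ p, φ (C.u p) = 0) ∨ ∀ p q, C.u p = C.u q) : T α = 0 := by
  obtain ⟨ι, e, ρ, he, hsub, H⟩ := h
  have hz : ∀ i, ∫ z in (e i).target, ρ i ((e i).symm z) * pull C.u (e i) α z = 0 := by
    intro i
    refine setIntegral_eq_zero_of_forall_eq_zero fun z hz => ?_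
    have h1 : (α : V → Form 2) = fun x => φ x • kahler := funext hα
    rw [h1, pull_kahler C (he i) φ hz]
    rcases h0 with h0 | h0
    · rw [h0]; simp
    · have : (C.u ∘ (e i).symm) = fun _ => C.u ((e i).symm z) := by
        funext w
        exact h0 _ _
      rw [this]
      simp
  have := H α
  simp only [hz] at this
  exact this.unique hasSum_zero

lemma not_superposition {U : Opens V} (hU : (0 : V) ∈ U) : ¬ IsSuperposition (restr U cyc) := by
  rintro ⟨mS, ν, h⟩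
  obtain ⟨r, hr, hball⟩ := Metric.isOpen_iff.1 U.isOpen 0 hU
  -- bump functions off the support
  set O : Set V := (U : Set V) \ supp with hO
  have hOo : IsOpen O := U.isOpen.sdiff isClosed_supp
  have hb : ∀ x ∈ O, ∃ φ : 𝓓(U, ℝ), (∀ y, 0 ≤ φ y) ∧ tsupport φ ⊆ O ∧ φ x = 1 := by
    intro x hx
    obtain ⟨f, hf1, hf2, hf3, hf4, hf5⟩ :=
      exists_contDiff_tsupport_subset (n := ⊤) (hOo.mem_nhds hx)
    refine ⟨⟨f, hf3, hf2, hf1.trans sdiff_subset⟩, fun y => ?_, hf1, hf5⟩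
    exact (hf4 ⟨y, rfl⟩).1
  choose! φ hφ0 hφs hφ1 using hb
  obtain ⟨t, htO, htc, hcov⟩ := TopologicalSpace.countable_cover_nhdsWithin
    (f := fun x => {y | 0 < φ x y}) (s := O) (fun x hx => by
      refine mem_nhdsWithin_of_mem_nhds ?_
      refine (isOpen_lt continuous_const (φ x).continuous).mem_nhds ?_
      show 0 < φ x x
      rw [hφ1 x hx]
      exact one_pos)
  -- almost every curve has no mass off the support
  have hae : ∀ᵐ T : PU U ∂ν, ∀ x ∈ t, T.1 (Lam (φ x)) = 0 := by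
    rw [ae_ball_iff htc]
    intro x hx
    have hxO := htO hx
    obtain ⟨hint, heq⟩ := h (Lam (φ x))
    have hnn : ∀ T : PU U, 0 ≤ T.1 (Lam (φ x)) := by
      intro T
      obtain ⟨C, hC⟩ := T.2
      exact integration_nonneg hC (hφ0 x hxO) (Lam_apply (φ x))
    have hz : restr U cyc (Lam (φ x)) = 0 := by
      obtain ⟨α', hα', hr'⟩ := restr_apply cyc (Lam (φ x))
      rw [hr']
      refine cyc_zero (φ := φ x) (fun y => by rw [hα', Lam_apply]) fun y hy => ?_
      by_contra hne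
      exact (hφs x hxO (subset_tsupport _ hne)).2 hy
    rw [hz] at heq
    exact (integral_eq_zero_iff_of_nonneg hnn hint).1 heq.symm
  -- a bump function at the origin
  obtain ⟨f, hf1, hf2, hf3, hf4, hf5⟩ :=
    exists_contDiff_tsupport_subset (n := ⊤) (Metric.ball_mem_nhds (0 : V) hr)
  let φ₀ : 𝓓(U, ℝ) := ⟨f, hf3, hf2, hf1.trans hball⟩
  have hae0 : ∀ᵐ T : PU U ∂ν, T.1 (Lam φ₀) = 0 := by
    filter_upwards [hae] with T hT
    obtain ⟨C, hC⟩ := T.2
    refine zero_of_pull_zero hC (Lam_apply φ₀) ?_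
    by_cases hconst : ∀ p q, C.u p = C.u q
    · exact Or.inr hconst
    · left
      have hsupp : ∀ p, C.u p ∈ supp := by
        by_contra hns
        push Not at hns
        obtain ⟨p₀, hp₀⟩ := hns
        apply hconst
        refine const_of_deriv_zero C.hol (N := {p | C.u p ∉ supp})
          (isClosed_supp.isOpen_compl.preimage C.hol.continuous) hp₀ fun p hp => ?_
        have hpO : C.u p ∈ O := ⟨C.maps p, hp⟩
        obtain ⟨x, hxt, hx⟩ := mem_iUnion₂.1 (hcov hpO)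
        exact deriv_zero_of_integration hC (hφ0 x (htO hxt)) (Lam_apply (φ x)) (hT x hxt) p hx
      intro p
      by_contra hne
      have hpb : C.u p ∈ Metric.ball (0 : V) r := hf1 (subset_tsupport _ hne)
      exact avoid C hball hsupp hconst p hpb
  obtain ⟨-, heq⟩ := h (Lam φ₀)
  rw [integral_eq_zero_of_ae hae0] at heq
  obtain ⟨α', hα', hr'⟩ := restr_apply cyc (Lam φ₀)
  rw [hr'] at heq
  have hpos : 0 < cyc α' := by
    refine cyc_pos (φ := f) (fun y => by rw [hα', Lam_apply]; rfl) hf3.continuous hf2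
      (fun y => (hf4 ⟨y, rfl⟩).1) (by rw [hf5]; exact one_pos)
  exact hpos.ne' heq

/-- Main statement: the tropical cycle is a `C`-cycle on `ℂ²` which on no neighbourhood of the
origin is a non-negative superposition of pseudoholomorphic curves. -/
theorem main : ∃ c : Current 2 ⊤, IsCCurrent c ∧ IsCycle c ∧
    ∀ U : Opens V, (0 : V) ∈ U → ¬ IsSuperposition (restr U c) :=
  ⟨cyc, isCCurrent_cyc, isCycle_cyc, fun _ hU => not_superposition hU⟩

end Pool.Agent.N528.LeafCyc
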