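import Pool.Agent.N528.LeafCyc.Curves

/-!
# Leafwise complex cycles: the Kähler form and positivity of integration currents
-/

open TopologicalSpace MeasureTheory Set Function Filter Topology
open scoped Distributions CompactConvergenceCLM ContDiff Manifold NNReal unitInterval

noncomputable section

namespace Pool.Agent.N528.LeafCyc

/-- the standard Kähler form of `ℂ²` -/
def kahler : Form 2 where
  toFun v := (star (v 0).1 * (v 1).1).im + (star (v 0).2 * (v 1).2).im
  map_update_add' := by
    intro _ m i x y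
    fin_cases i <;> simp <;> ring
  map_update_smul' := by
    intro _ m i c x
    fin_cases i <;> simp <;> ring
  map_eq_zero_of_eq' := by
    intro v i j h hij
    have : v 0 = v 1 := by
      fin_cases i <;> fin_cases j <;> simp_all
    rw [this]
    simp
    ring
  cont := by fun_prop

lemma kahler_apply (v : Fin 2 → V) :
    kahler v = (star (v 0).1 * (v 1).1).im + (star (v 0).2 * (v 1).2).im := rfl

lemma kahler_self (v : V) : kahler ![v, Complex.I • v] = ‖v.1‖ ^ 2 + ‖v.2‖ ^ 2 := by
  rw [← Complex.normSq_eq_norm_sq, ← Complex.normSq_eq_norm_sq, Complex.normSq_apply,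
    Complex.normSq_apply, kahler_apply]
  simp

lemma fderiv_I {f : ℂ → V} {z : ℂ} (h : DifferentiableAt ℂ f z) :
    fderiv ℝ f z Complex.I = Complex.I • fderiv ℝ f z 1 := by
  rw [h.fderiv_restrictScalars ℝ]
  simp only [ContinuousLinearMap.coe_restrictScalars']
  rw [← ContinuousLinearMap.map_smul]
  simp

section

variable {U : Opens V} (C : Curve U) {e : OpenPartialHomeomorph C.S ℂ}

lemma pull_kahler (he : e ∈ atlas ℂ C.S) (φ : V → ℝ) {z : ℂ} (hz : z ∈ e.target) :
    pull C.u e (fun x => φ x • kahler) z = φ (C.u (e.symm z)) *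
      (‖(fderiv ℝ (C.u ∘ e.symm) z 1).1‖ ^ 2 + ‖(fderiv ℝ (C.u ∘ e.symm) z 1).2‖ ^ 2) := by
  have hd : DifferentiableAt ℂ (C.u ∘ e.symm) z :=
    (diffOn_chart C.hol he).differentiableAt (e.open_target.mem_nhds hz)
  rw [pull, fderiv_I hd, ContinuousAlternatingMap.smul_apply, kahler_self, smul_eq_mul]

lemma isCompact_preimage_curve {K : Set V} (hK : IsCompact K) (hKU : K ⊆ U) :
    IsCompact (C.u ⁻¹' K) := by
  have h1 : IsCompact ((↑) ⁻¹' K : Set U) := by
    rw [Subtype.isCompact_iff]
    have h : (Subtype.val '' ((Subtype.val : U → V) ⁻¹' K)) = K := by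
      ext x
      constructor
      · rintro ⟨y, hy, rfl⟩
        exact hy
      · intro hx
        exact ⟨⟨x, hKU hx⟩, hx, rfl⟩
    rw [h]
    exact hK
  have h2 := C.proper.isCompact_preimage h1
  exact h2

lemma continuous_u : Continuous C.u := C.hol.continuous

lemma continuousOn_pull (he : e ∈ atlas ℂ C.S) {α : V → Form 2} (hα : Continuous α) :
    ContinuousOn (pull C.u e α) e.target := by
  have hs : ContinuousOn e.symm e.target := e.continuousOn_symm
  have h1 : ContinuousOn (fun z => α (C.u (e.symm z))) e.target :=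
    (hα.comp (continuous_u C)).comp_continuousOn hs
  have h2 : ContDiffOn ℝ 1 (C.u ∘ e.symm) e.target :=
    ((diffOn_chart C.hol he).contDiffOn e.open_target).restrict_scalars ℝ
  have h3 : ContinuousOn (fderiv ℝ (C.u ∘ e.symm)) e.target :=
    h2.continuousOn_fderiv_of_isOpen e.open_target le_rfl
  have h4 : ContinuousOn (fun z => ![fderiv ℝ (C.u ∘ e.symm) z 1,
      fderiv ℝ (C.u ∘ e.symm) z Complex.I]) e.target := by
    rw [continuousOn_pi]
    intro i
    fin_cases i
    · exact h3.clm_apply continuousOn_const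
    · exact h3.clm_apply continuousOn_const
  intro z hz
  exact (h1 z hz).eval (h4 z hz)

lemma integrableOn_term (he : e ∈ atlas ℂ C.S) (ρ : C(C.S, ℝ)) (hρ : tsupport ρ ⊆ e.source)
    (α : 𝓓(U, Form 2)) :
    IntegrableOn (fun z => ρ (e.symm z) * pull C.u e α z) e.target := by
  set K : Set C.S := C.u ⁻¹' (tsupport α) ∩ tsupport ρ with hK
  have hKc : IsCompact K :=
    (isCompact_preimage_curve C α.hasCompactSupport α.tsupport_subset).inter_right
      (isClosed_tsupport _)
  have hKs : K ⊆ e.source := fun p hp => hρ hp.2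
  have hK' : IsCompact (e '' K) := hKc.image_of_continuousOn (e.continuousOn.mono hKs)
  have hK't : e '' K ⊆ e.target := by
    rintro _ ⟨p, hp, rfl⟩
    exact e.map_source (hKs hp)
  have hc : ContinuousOn (fun z => ρ (e.symm z) * pull C.u e α z) e.target :=
    (ρ.continuous.comp_continuousOn e.continuousOn_symm).mul
      (continuousOn_pull C he α.continuous)
  refine IntegrableOn.of_forall_sdiff_eq_zero ((hc.mono hK't).integrableOn_compact hK')
    e.open_target.measurableSet ?_
  rintro z ⟨hz, hzK⟩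
  by_cases h1 : ρ (e.symm z) = 0
  · rw [h1, zero_mul]
  · have h2 : e.symm z ∈ tsupport ρ := subset_tsupport _ h1
    have h3 : α (C.u (e.symm z)) = 0 := by
      by_contra h3
      exact hzK ⟨e.symm z, ⟨subset_tsupport _ h3, h2⟩, e.right_inv hz⟩
    simp [pull, h3]

end

/-- For non-negative `φ`, the value of the current of integration on `φ ω` is non-negative, and
if it vanishes then the derivative of the curve vanishes wherever `φ > 0`. -/
lemma integration_nonneg {U : Opens V} {C : Curve U} {T : Current 2 U} (h : IsIntegration C T)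
    {α : 𝓓(U, Form 2)} {φ : V → ℝ} (hφ : ∀ x, 0 ≤ φ x) (hα : ∀ x, α x = φ x • kahler) :
    0 ≤ T α := by
  obtain ⟨ι, e, ρ, he, hsub, H⟩ := h
  refine (H α).nonneg fun i => setIntegral_nonneg (e i).open_target.measurableSet fun z hz => ?_
  have h1 : (α : V → Form 2) = fun x => φ x • kahler := funext hα
  rw [h1, pull_kahler C (he i) φ hz]
  have := ρ.nonneg i ((e i).symm z)
  have := hφ (C.u ((e i).symm z))
  positivity

lemma deriv_zero_of_integration {U : Opens V} {C : Curve U} {T : Current 2 U}
    (h : IsIntegration C T) {α : 𝓓(U, Form 2)} {φ : V → ℝ} (hφ : ∀ x, 0 ≤ φ x)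
    (hα : ∀ x, α x = φ x • kahler) (hT : T α = 0) (p : C.S) (hp : 0 < φ (C.u p)) :
    ∃ e ∈ atlas ℂ C.S, p ∈ e.source ∧ fderiv ℝ (C.u ∘ e.symm) (e p) 1 = 0 := by
  obtain ⟨ι, e, ρ, he, hsub, H⟩ := h
  have h1 : (α : V → Form 2) = fun x => φ x • kahler := funext hα
  obtain ⟨i, hi⟩ := ρ.exists_pos (mem_univ p)
  have hps : p ∈ (e i).source := hsub i (subset_tsupport _ hi.ne')
  refine ⟨e i, he i, hps, ?_⟩
  have hnn : ∀ j, ∀ z ∈ (e j).target, 0 ≤ ρ j ((e j).symm z) * pull C.u (e j) α z := by
    intro j z hz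
    rw [h1, pull_kahler C (he j) φ hz]
    have := ρ.nonneg j ((e j).symm z)
    have := hφ (C.u ((e j).symm z))
    positivity
  have hzero : ∀ j, ∫ z in (e j).target, ρ j ((e j).symm z) * pull C.u (e j) α z = 0 := by
    have H0 := H α
    rw [hT] at H0
    have := (hasSum_zero_iff_of_nonneg (fun j =>
      setIntegral_nonneg (e j).open_target.measurableSet (hnn j))).1 H0
    intro j
    exact congrFun this j
  have hae := (setIntegral_eq_zero_iff_of_nonneg_ae ((ae_restrict_iff'
    (e i).open_target.measurableSet).2 (Eventually.of_forall (hnn i)))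
    (integrableOn_term C (he i) (ρ i) (hsub i) α)).1 (hzero i)
  have hc : ContinuousOn (fun z => ρ i ((e i).symm z) * pull C.u (e i) α z) (e i).target :=
    ((ρ i).continuous.comp_continuousOn (e i).continuousOn_symm).mul
      (continuousOn_pull C (he i) α.continuous)
  have heq : EqOn (fun z => ρ i ((e i).symm z) * pull C.u (e i) α z) (fun _ => (0 : ℝ))
      (e i).target :=
    Measure.eqOn_open_of_ae_eq hae (e i).open_target hc continuousOn_const
  have hz := heq ((e i).map_source hps)
  simp only at hz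
  rw [h1, pull_kahler C (he i) φ ((e i).map_source hps), (e i).left_inv hps] at hz
  have h5 := (mul_eq_zero.1 hz).resolve_left hi.ne'
  have h6 := (mul_eq_zero.1 h5).resolve_left hp.ne'
  have h7 : ‖(fderiv ℝ (C.u ∘ (e i).symm) ((e i) p) 1).1‖ ^ 2 = 0 := by
    have := sq_nonneg ‖(fderiv ℝ (C.u ∘ (e i).symm) ((e i) p) 1).1‖
    have := sq_nonneg ‖(fderiv ℝ (C.u ∘ (e i).symm) ((e i) p) 1).2‖
    linarith
  have h8 : ‖(fderiv ℝ (C.u ∘ (e i).symm) ((e i) p) 1).2‖ ^ 2 = 0 := by
    have := sq_nonneg ‖(fderiv ℝ (C.u ∘ (e i).symm) ((e i) p) 1).1‖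
    have := sq_nonneg ‖(fderiv ℝ (C.u ∘ (e i).symm) ((e i) p) 1).2‖
    linarith
  ext
  · simpa using h7
  · simpa using h8

end Pool.Agent.N528.LeafCyc
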