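import Pool.Agent.N528.LeafCyc.Main

/-!
# Leafwise complex cycles: sanity check, the complex line belongs to the set of curves
-/

open TopologicalSpace MeasureTheory Set Function Filter Topology
open scoped Distributions CompactConvergenceCLM ContDiff Manifold NNReal unitInterval ENNReal

noncomputable section

namespace Pool.Agent.N528.LeafCyc

/-- the inclusion of the complex line `ℂ × {0}` -/
def lineMap : ℂ →L[ℂ] V := ContinuousLinearMap.inl ℂ ℂ ℂ

lemma isClosedEmbedding_lineMap : IsClosedEmbedding lineMap := by
  have h : AntilipschitzWith 1 lineMap := by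
    refine lineMap.antilipschitz_of_bound fun z => ?_
    simp [lineMap]
  exact h.isClosedEmbedding lineMap.uniformContinuous

/-- the complex line as a curve in `ℂ²` -/
def lineCurve : Curve ⊤ where
  S := ℂ
  u := lineMap
  maps := fun _ => trivial
  proper := isProperMap_of_comp_of_inj (by fun_prop) continuous_subtype_val
    (isClosedEmbedding_lineMap.isProperMap) Subtype.val_injective
  hol := lineMap.mdifferentiable

/-- the current of integration over the complex line -/
def lineCurrent : Current 2 ⊤ :=
  (TestFunction.integralAgainstBilinCLM (ContinuousLinearMap.apply ℝ ℝ)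
    (Measure.map lineMap (volume : Measure ℂ))
    (fun _ => wedge (1, 0) (Complex.I, 0)) : 𝓓((⊤ : Opens V), Form 2) →L[ℝ] ℝ)

lemma lineCurrent_apply (α : 𝓓((⊤ : Opens V), Form 2)) :
    lineCurrent α = ∫ z : ℂ, α (z, 0) ![((1 : ℂ), (0 : ℂ)), (Complex.I, (0 : ℂ))] := by
  have hf : IsFiniteMeasureOnCompacts (Measure.map lineMap (volume : Measure ℂ)) := by
    constructor
    intro K hK
    rw [Measure.map_apply lineMap.continuous.measurable hK.measurableSet]
    exact (isClosedEmbedding_lineMap.isCompact_preimage hK).measure_lt_top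
  have h1 : lineCurrent α = ∫ x, (ContinuousLinearMap.apply ℝ ℝ) (α x)
      (wedge (1, 0) (Complex.I, 0)) ∂(Measure.map lineMap (volume : Measure ℂ)) :=
    TestFunction.integralAgainstBilinCLM_eq_integral
      ((locallyIntegrable_const _).locallyIntegrableOn _)
  rw [h1, isClosedEmbedding_lineMap.measurableEmbedding.integral_map]
  rfl

/-- sanity check: the current of integration over the complex line `ℂ × {0}` belongs to the set
of pseudoholomorphic curves in `ℂ²`. -/
lemma lineCurrent_mem : lineCurrent ∈ PU ⊤ := by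
  refine ⟨lineCurve, Unit, fun _ => OpenPartialHomeomorph.refl ℂ,
    { toFun := fun _ => 1
      locallyFinite' := locallyFinite_of_finite _
      nonneg' := fun _ _ => zero_le_one
      sum_eq_one' := fun x _ => by rw [finsum_unique]; rfl
      sum_le_one' := fun x => by rw [finsum_unique]; exact le_rfl }, fun _ => rfl, fun _ => subset_univ _, fun α => ?_⟩
  rw [lineCurrent_apply]
  have h : ∀ z : ℂ, pull lineCurve.u (OpenPartialHomeomorph.refl ℂ) α z =
      α (z, 0) ![((1 : ℂ), (0 : ℂ)), (Complex.I, (0 : ℂ))] := by
    intro z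
    have h2 : (lineCurve.u ∘ (OpenPartialHomeomorph.refl ℂ).symm) =
        (lineMap.restrictScalars ℝ : ℂ →L[ℝ] V) := rfl
    show α (lineMap z) ![fderiv ℝ (lineCurve.u ∘ (OpenPartialHomeomorph.refl ℂ).symm) z 1,
      fderiv ℝ (lineCurve.u ∘ (OpenPartialHomeomorph.refl ℂ).symm) z Complex.I] = _
    rw [h2, (lineMap.restrictScalars ℝ).fderiv]
    rfl
  have h3 : (∫ z : ℂ, α (z, 0) ![((1 : ℂ), (0 : ℂ)), (Complex.I, (0 : ℂ))]) =
      ∫ z in (OpenPartialHomeomorph.refl ℂ).target,
        (1 : C(ℂ, ℝ)) ((OpenPartialHomeomorph.refl ℂ).symm z) *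
          pull lineCurve.u (OpenPartialHomeomorph.refl ℂ) α z := by
    simp [h]
  rw [h3]
  exact hasSum_unique (fun _ : Unit => _)

end Pool.Agent.N528.LeafCyc
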