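import Pool.Agent.N528.LeafCyc.Defs

/-!
# Leafwise complex cycles: holomorphic functions on connected Riemann surfaces
-/

open TopologicalSpace MeasureTheory Set Function Filter Topology
open scoped Distributions CompactConvergenceCLM ContDiff Manifold NNReal

noncomputable section

namespace Pool.Agent.N528.LeafCyc

section Surface

variable {S : Type} [TopologicalSpace S] [ChartedSpace ℂ S] [IsManifold 𝓘(ℂ, ℂ) 1 S]
variable {E : Type*} [NormedAddCommGroup E] [NormedSpace ℂ E]

lemma diffOn_chart {g : S → E} (hg : MDifferentiable 𝓘(ℂ, ℂ) 𝓘(ℂ, E) g)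
    {e : OpenPartialHomeomorph S ℂ} (he : e ∈ atlas ℂ S) :
    DifferentiableOn ℂ (g ∘ e.symm) e.target := by
  rw [← mdifferentiableOn_iff_differentiableOn]
  exact hg.comp_mdifferentiableOn (mdifferentiableOn_atlas_symm he)

lemma analyticOn_chart [CompleteSpace E] {g : S → E} (hg : MDifferentiable 𝓘(ℂ, ℂ) 𝓘(ℂ, E) g)
    {e : OpenPartialHomeomorph S ℂ} (he : e ∈ atlas ℂ S) :
    AnalyticOnNhd ℂ (g ∘ e.symm) e.target :=
  (diffOn_chart hg he).analyticOnNhd e.open_target

omit [ChartedSpace ℂ S] [IsManifold 𝓘(ℂ, ℂ) 1 S] in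
/-- eventual statements transported to a chart -/
lemma eventually_chart (e : OpenPartialHomeomorph S ℂ) {p : S} (hp : p ∈ e.source)
    {P : S → Prop} : (∀ᶠ q in 𝓝 p, P q) ↔ ∀ᶠ z in 𝓝 (e p), P (e.symm z) := by
  rw [← e.symm_map_nhds_eq hp, eventually_map]

lemma local_dichotomy {g : S → ℂ} (hg : MDifferentiable 𝓘(ℂ, ℂ) 𝓘(ℂ, ℂ) g) (p : S) :
    (∀ᶠ q in 𝓝 p, g q = g p) ∨ 𝓝 (g p) ≤ map g (𝓝 p) := by
  set e := chartAt ℂ p
  have hp : p ∈ e.source := mem_chart_source ℂ p
  have han : AnalyticAt ℂ (g ∘ e.symm) (e p) :=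
    analyticOn_chart hg (chart_mem_atlas ℂ p) (e p) (e.map_source hp)
  rcases han.eventually_constant_or_nhds_le_map_nhds with h | h
  · left
    rw [eventually_chart e hp]
    filter_upwards [h] with z hz
    simpa [e.left_inv hp] using hz
  · right
    rw [← Filter.map_map, e.symm_map_nhds_eq hp] at h
    simpa [e.left_inv hp] using h

/-- A map which is constant near a point of the closure of its set of local constancy is
constant near that point. -/
lemma isClopen_locConst [CompleteSpace E] {g : S → E} (hg : MDifferentiable 𝓘(ℂ, ℂ) 𝓘(ℂ, E) g) :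
    IsClopen {p | ∀ᶠ q in 𝓝 p, g q = g p} := by
  constructor
  · rw [← closure_eq_iff_isClosed]
    refine subset_antisymm ?_ subset_closure
    intro p hp
    set e := chartAt ℂ p
    have hps : p ∈ e.source := mem_chart_source ℂ p
    have han := analyticOn_chart hg (chart_mem_atlas ℂ p)
    obtain ⟨r, hr, hball⟩ := Metric.isOpen_iff.1 e.open_target (e p) (e.map_source hps)
    -- the neighbourhood of `p` corresponding to the ball
    have hN : e.source ∩ e ⁻¹' Metric.ball (e p) r ∈ 𝓝 p :=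
      (e.isOpen_inter_preimage Metric.isOpen_ball).mem_nhds ⟨hps, Metric.mem_ball_self hr⟩
    obtain ⟨q, ⟨hqs, hqb⟩, hq⟩ := mem_closure_iff_nhds.1 hp _ hN
    -- `g ∘ e.symm` is constant on the ball
    have hconst : EqOn (g ∘ e.symm) (fun _ => g q) (Metric.ball (e p) r) := by
      refine AnalyticOnNhd.eqOn_of_preconnected_of_eventuallyEq (𝕜 := ℂ) (z₀ := e q)
        (fun z hz => han z (hball hz)) analyticOnNhd_const
        (convex_ball _ _).isPreconnected hqb ?_
      have h1 := (eventually_chart e hqs).1 hq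
      filter_upwards [h1] with z hz
      simpa using hz
    rw [Set.mem_ofPred_eq, eventually_chart e hps]
    have hgp : g p = g q := by
      have := hconst (Metric.mem_ball_self hr)
      simpa [e.left_inv hps] using this
    filter_upwards [Metric.ball_mem_nhds (e p) hr] with z hz
    rw [hgp]
    exact hconst hz
  · rw [isOpen_iff_mem_nhds]
    intro p hp
    have h2 := eventually_eventually_nhds.2 hp
    filter_upwards [h2, hp] with q hq hq'
    filter_upwards [hq] with q' hq''
    rw [hq'', hq']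

/-- identity theorem: a holomorphic map on a connected Riemann surface which is constant near
a point is constant. -/
lemma const_of_eventually [ConnectedSpace S] [CompleteSpace E] {g : S → E}
    (hg : MDifferentiable 𝓘(ℂ, ℂ) 𝓘(ℂ, E) g) {p₀ : S} (h : ∀ᶠ q in 𝓝 p₀, g q = g p₀) :
    ∀ p q, g p = g q := by
  have huniv : {p | ∀ᶠ q in 𝓝 p, g q = g p} = univ :=
    (isClopen_locConst hg).eq_univ ⟨p₀, h⟩
  have hl : IsLocallyConstant g := by
    rw [IsLocallyConstant.iff_eventually_eq]
    intro p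
    have : p ∈ {p | ∀ᶠ q in 𝓝 p, g q = g p} := by rw [huniv]; trivial
    exact this
  intro p q
  exact hl.apply_eq_of_preconnectedSpace p q

/-- a nonconstant holomorphic function on a connected Riemann surface is open -/
lemma nhds_le_of_nonconst [ConnectedSpace S] {g : S → ℂ}
    (hg : MDifferentiable 𝓘(ℂ, ℂ) 𝓘(ℂ, ℂ) g) (h : ¬ ∀ p q, g p = g q) (p : S) :
    𝓝 (g p) ≤ map g (𝓝 p) :=
  (local_dichotomy hg p).resolve_left fun h1 => h (const_of_eventually hg h1)

/-- if the derivative of the holomorphic map `g` vanishes on an open nonempty set then `g` is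
constant -/
lemma const_of_deriv_zero [ConnectedSpace S] [CompleteSpace E] {g : S → E}
    (hg : MDifferentiable 𝓘(ℂ, ℂ) 𝓘(ℂ, E) g) {N : Set S} (hN : IsOpen N) {p₀ : S} (hp₀ : p₀ ∈ N)
    (h : ∀ p ∈ N, ∃ e ∈ atlas ℂ S, p ∈ e.source ∧ fderiv ℝ (g ∘ e.symm) (e p) 1 = 0) :
    ∀ p q, g p = g q := by
  refine const_of_eventually hg (p₀ := p₀) ?_
  set e₀ := chartAt ℂ p₀
  have he₀ : e₀ ∈ atlas ℂ S := chart_mem_atlas ℂ p₀
  have hps : p₀ ∈ e₀.source := mem_chart_source ℂ p₀
  have hmem : e₀.target ∩ e₀.symm ⁻¹' N ∈ 𝓝 (e₀ p₀) :=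
    (e₀.isOpen_inter_preimage_symm hN).mem_nhds
      ⟨e₀.map_source hps, by simpa [e₀.left_inv hps] using hp₀⟩
  obtain ⟨r, hr, hball⟩ := Metric.mem_nhds_iff.1 hmem
  have hdiff : DifferentiableOn ℂ (g ∘ e₀.symm) (Metric.ball (e₀ p₀) r) :=
    (diffOn_chart hg he₀).mono fun z hz => (hball hz).1
  have hder : ∀ z ∈ Metric.ball (e₀ p₀) r, fderiv ℂ (g ∘ e₀.symm) z = 0 := by
    intro z hz
    obtain ⟨hzt, hzN⟩ := hball hz
    set p := e₀.symm z with hpdef
    have hpN : p ∈ N := hzN
    obtain ⟨e, he, hpe, hd⟩ := h p hpN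
    have hpz : e₀ p = z := e₀.right_inv hzt
    have hps' : p ∈ e₀.source := e₀.map_target hzt
    have hdg : DifferentiableAt ℂ (g ∘ e.symm) (e p) :=
      (diffOn_chart hg he).differentiableAt (e.open_target.mem_nhds (e.map_source hpe))
    have hd1 : fderiv ℂ (g ∘ e.symm) (e p) = 0 := by
      have h1 : fderiv ℝ (g ∘ e.symm) (e p) = (fderiv ℂ (g ∘ e.symm) (e p)).restrictScalars ℝ :=
        (hdg.fderiv_restrictScalars ℝ)
      rw [h1] at hd
      ext
      simpa using hd
    -- transition map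
    have htr : DifferentiableAt ℂ (e ∘ e₀.symm) z := by
      rw [← mdifferentiableAt_iff_differentiableAt]
      have h2 : MDifferentiableAt 𝓘(ℂ, ℂ) 𝓘(ℂ, ℂ) e (e₀.symm z) :=
        mdifferentiableAt_atlas he hpe
      exact h2.comp z (mdifferentiableAt_atlas_symm he₀ hzt)
    have heq : (g ∘ e₀.symm) =ᶠ[𝓝 z] (g ∘ e.symm) ∘ (e ∘ e₀.symm) := by
      have hc : ∀ᶠ w in 𝓝 z, e₀.symm w ∈ e.source :=
        (e₀.continuousAt_symm hzt).eventually (e.open_source.mem_nhds hpe)
      filter_upwards [hc] with w hw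
      simp [e.left_inv hw]
    rw [heq.fderiv_eq]
    rw [fderiv_comp z (by simpa [← hpdef] using hdg) htr]
    have : fderiv ℂ (g ∘ e.symm) ((e ∘ e₀.symm) z) = 0 := by simpa [← hpdef] using hd1
    rw [this]
    simp
  have hconst := fun z hz => (convex_ball (e₀ p₀) r).is_const_of_fderivWithin_eq_zero (𝕜 := ℂ)
    hdiff (fun w hw => by
      rw [fderivWithin_of_isOpen Metric.isOpen_ball hw]; exact hder w hw) (x := z)
      (y := e₀ p₀) hz (Metric.mem_ball_self hr)
  rw [eventually_chart e₀ hps]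
  filter_upwards [Metric.ball_mem_nhds (e₀ p₀) hr] with z hz
  have := hconst z hz
  simpa [e₀.left_inv hps] using this

end Surface

end Pool.Agent.N528.LeafCyc
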